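import Pool.Agent.Lib_MP_e211d6_h89.GeomC

/-!
# Self-associated configurations are self-dual
-/

namespace Pool.Agent.MP_e211d6_h89

open Finset

variable {ι : Type*} [Fintype ι] [DecidableEq ι] {d : ℕ}

omit [DecidableEq ι] [Fintype ι] in
theorem lift_mem_aff (x : ι → EuclideanSpace ℝ (Fin d)) (k : Fin (d + 1)) :
    (fun i => lift (x i) k) ∈ aff x := by
  classical
  refine ⟨Pi.single k 1, ?_⟩
  funext i
  rw [affMap_apply, Finset.sum_eq_single_of_mem k (Finset.mem_univ _) fun j _ hj => by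
    rw [Pi.single_eq_of_ne hj, zero_mul], Pi.single_eq_same, one_mul]

theorem selfDual_of_assoc {x : ι → EuclideanSpace ℝ (Fin d)} (hinj : Function.Injective x)
    (hx : Generic x) (hd : 1 ≤ d) (hcard : Fintype.card ι = 2 * d + 2) {c : ι → ℝ} (hc : ∃ i, c i ≠ 0)
    (h : ∀ u ∈ aff x, ∀ v ∈ aff x, ∑ i, c i * u i * v i = 0) :
    ∃ G : Finset ι, ∀ A, HM x A Aᶜ ↔ ¬ HM x (symmDiff A G) (symmDiff A G)ᶜ := by
  classical
  have hL : Sys (aff x) (d + 1) := hx.sys_aff (by omega)
  have hV : Sys (dep x) (d + 1) := hx.sys (by omega)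
  have hcu : ∀ u ∈ aff x, (fun i => c i * u i) ∈ dep x := fun u hu =>
    mem_dep.2 fun k => h u hu _ (lift_mem_aff x k)
  have hc0 : ∀ z, c z ≠ 0 := by
    intro z hz
    obtain ⟨j, hj⟩ := hc
    have hjz : j ≠ z := by rintro rfl; exact hj hz
    have h1 : d ≤ ((univ.erase j).erase z : Finset ι).card := by
      rw [Finset.card_erase_of_mem (Finset.mem_erase.2 ⟨hjz.symm, Finset.mem_univ _⟩),
        Finset.card_erase_of_mem (Finset.mem_univ _), Finset.card_univ, hcard]
      omega
    obtain ⟨Y, hY, hYc⟩ := Finset.exists_subset_card_eq h1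
    have hzY : z ∉ Y := fun hh => (Finset.mem_erase.1 (hY hh)).1 rfl
    have hjY : j ∉ Y := fun hh => (Finset.mem_erase.1 (Finset.mem_erase.1 (hY hh)).2).1 rfl
    obtain ⟨u, hu, -, hu0, huk⟩ := hL.exists_zero_set (Z := Y) (by omega)
    have h2 := hV.eq_zero (hcu u hu) (insert z Y)
      (by rw [Finset.card_insert_of_notMem hzY]; omega) (by
      intro k hk
      rcases Finset.mem_insert.1 hk with rfl | hk
      · simp [hz]
      · simp [hu0 k hk])
    have h3 := congrFun h2 j
    simp only [Pi.zero_apply] at h3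
    rcases mul_eq_zero.1 h3 with h4 | h4
    · exact hj h4
    · exact huk j hjY h4
  set G := univ.filter fun i => c i < 0 with hG
  have hmem : ∀ i, i ∈ G ↔ c i < 0 := fun i => by simp [hG]
  -- multiplication by `c` exchanges the topes
  have h1 : ∀ A, Tope (aff x) A → Tope (dep x) (symmDiff A G) := by
    rintro A ⟨u, hu, hp, hn⟩
    refine ⟨_, hcu u hu, fun k hk => ?_, fun k hk => ?_⟩
    · rw [Finset.mem_symmDiff, hmem] at hk
      rcases hk with ⟨h1, h2⟩ | ⟨h1, h2⟩
      · exact mul_pos (lt_of_le_of_ne (not_lt.1 h2) (hc0 k).symm) (hp k h1)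
      · exact mul_pos_of_neg_of_neg h1 (hn k h2)
    · rw [Finset.mem_symmDiff, hmem] at hk
      by_cases hkA : k ∈ A
      · exact mul_neg_of_neg_of_pos (by
          by_contra hh
          exact hk (Or.inl ⟨hkA, hh⟩)) (hp k hkA)
      · refine mul_neg_of_pos_of_neg ?_ (hn k hkA)
        refine lt_of_le_of_ne (not_lt.1 fun hh => hk (Or.inr ⟨hh, hkA⟩)) (hc0 k).symm
  have hdiv : ∀ v ∈ dep x, ∃ u ∈ aff x, v = fun i => c i * u i := by
    intro v hv
    obtain ⟨T, -, hT⟩ := Finset.exists_subset_card_eq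
      (show d + 1 ≤ (univ : Finset ι).card by rw [Finset.card_univ, hcard]; omega)
    obtain ⟨u, hu, hu1⟩ := hL.surj (by rw [hcard]; omega) (Z := T) hT.le (fun i => v i / c i)
    refine ⟨u, hu, ?_⟩
    have h2 := hV.eq_zero ((dep x).sub_mem hv (hcu u hu)) T hT.ge (by
      intro k hk
      simp only [Pi.sub_apply, hu1 k hk]
      have := hc0 k
      field_simp
      ring)
    exact sub_eq_zero.1 h2
  have h2 : ∀ A, Tope (dep x) A → Tope (aff x) (symmDiff A G) := by
    rintro A ⟨v, hv, hp, hn⟩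
    obtain ⟨u, hu, rfl⟩ := hdiv v hv
    refine ⟨u, hu, fun k hk => ?_, fun k hk => ?_⟩
    · rw [Finset.mem_symmDiff, hmem] at hk
      rcases hk with ⟨h1, h2⟩ | ⟨h1, h2⟩
      · have h3 : 0 < c k := lt_of_le_of_ne (not_lt.1 h2) (hc0 k).symm
        exact (mul_pos_iff_of_pos_left h3).1 (hp k h1)
      · by_contra hh
        have := mul_nonneg_of_nonpos_of_nonpos h1.le (not_lt.1 hh)
        have := hn k h2
        simp only at this
        linarith
    · rw [Finset.mem_symmDiff, hmem] at hk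
      by_cases hkA : k ∈ A
      · have hck : c k < 0 := by
          by_contra hh
          exact hk (Or.inl ⟨hkA, hh⟩)
        by_contra hh
        have := mul_nonpos_of_nonpos_of_nonneg hck.le (not_lt.1 hh)
        have := hp k hkA
        simp only at this
        linarith
      · have hck : 0 < c k :=
          lt_of_le_of_ne (not_lt.1 fun hh => hk (Or.inr ⟨hh, hkA⟩)) (hc0 k).symm
        by_contra hh
        have := mul_nonneg hck.le (not_lt.1 hh)
        have := hn k hkA
        simp only at this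
        linarith
  have h3 : ∀ A, Tope (aff x) A → ¬ Tope (dep x) A := by
    rintro A ⟨u, hu, hp, hn⟩ ⟨v, hv, hp', hn'⟩
    have h0 := aff_orth x hu hv
    have h4 : ∀ i, 0 < u i * v i := by
      intro i
      by_cases hi : i ∈ A
      · exact mul_pos (hp i hi) (hp' i hi)
      · exact mul_pos_of_neg_of_neg (hn i hi) (hn' i hi)
    obtain ⟨i, -⟩ := hc
    have := Finset.sum_pos (fun i _ => h4 i) ⟨i, Finset.mem_univ i⟩
    linarith
  have h4 : ∀ A, ¬ Tope (aff x) A → Tope (dep x) A := by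
    intro A hA
    rw [tope_iff hinj, not_not] at hA
    obtain ⟨v, hv, hvne, hp, hn⟩ := hA.exists_dep hinj
    refine hV.tope_of_zero (by rw [hcard]; omega) hv (Z := univ.filter fun k => v k = 0)
      (hV.unif v hv hvne _ fun k hk => (Finset.mem_filter.1 hk).2).le (fun k hk => ?_)
      fun k hk => (Finset.mem_filter.1 hk).2
    have hvk : v k ≠ 0 := fun hh => hk (Finset.mem_filter.2 ⟨Finset.mem_univ _, hh⟩)
    exact ⟨fun hh => lt_of_le_of_ne (hp k hh) hvk.symm, fun hh => lt_of_le_of_ne (hn k hh) hvk⟩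
  refine ⟨G, fun A => ?_⟩
  have key : Tope (aff x) A ↔ ¬ Tope (aff x) (symmDiff A G) := by
    refine ⟨fun hA hB => h3 _ hB (h1 A hA), fun hB => ?_⟩
    have h5 := h2 _ (h4 _ hB)
    rwa [symmDiff_assoc, symmDiff_self, symmDiff_bot] at h5
  rw [tope_iff hinj, tope_iff hinj] at key
  tauto

end Pool.Agent.MP_e211d6_h89
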