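import Mathlib

/-!
# Cells with many facets: the linear core

`V` is a space of vectors `E → ℝ` such that non-zero vectors of `V` have fewer than `s` zeros and
any `s - 1` coordinates can be made zero by a non-zero vector of `V`.
-/

namespace Pool.Agent.MP_e211d6_h89

open Finset

variable {E : Type*} [Fintype E] [DecidableEq E]

/-- uniform space of dimension `s` -/
structure Sys (V : Submodule ℝ (E → ℝ)) (s : ℕ) : Prop where
  unif : ∀ v ∈ V, v ≠ 0 → ∀ Z : Finset E, (∀ k ∈ Z, v k = 0) → Z.card < s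
  dim : ∀ J : Finset E, J.card < s → ∃ v ∈ V, v ≠ 0 ∧ ∀ j ∈ J, v j = 0

/-- `e` is a facet of the cell with positive part `A` -/
def Wit (V : Submodule ℝ (E → ℝ)) (A : Finset E) (e : E) : Prop :=
  ∃ v ∈ V, v ≠ 0 ∧ v e = 0 ∧ (∀ k ∈ A, 0 ≤ v k) ∧ ∀ k ∉ A, v k ≤ 0

/-- some cell has at least `2 s - 1` facets -/
def Good (V : Submodule ℝ (E → ℝ)) (s : ℕ) : Prop :=
  ∃ A F : Finset E, 2 * s ≤ F.card + 1 ∧ ∀ e ∈ F, Wit V A e

theorem Sys.eq_zero {V : Submodule ℝ (E → ℝ)} {s : ℕ} (h : Sys V s) {v : E → ℝ} (hv : v ∈ V)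
    (Z : Finset E) (hZ : s ≤ Z.card) (h0 : ∀ k ∈ Z, v k = 0) : v = 0 := by
  by_contra hne
  exact absurd (h.unif v hv hne Z h0) (by omega)

/-- vertex of the cell of the arrangement `A` given by `v ≥ 0` -/
structure Vert (V : Submodule ℝ (E → ℝ)) (s : ℕ) (A : Finset E) (v : E → ℝ) : Prop where
  mem : v ∈ V
  ne : v ≠ 0
  nonneg : ∀ k ∈ A, 0 ≤ v k
  card : (A.filter fun k => v k = 0).card + 1 = s

theorem Vert.ne_zero {V : Submodule ℝ (E → ℝ)} {s : ℕ} (h : Sys V s) {A : Finset E} {v : E → ℝ}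
    (hv : Vert V s A v) {k : E} (hk : k ∉ A.filter fun k => v k = 0) : v k ≠ 0 := by
  intro h0
  have := h.unif v hv.mem hv.ne (insert k (A.filter fun k => v k = 0)) (by
    intro j hj
    rcases Finset.mem_insert.1 hj with rfl | hj
    · exact h0
    · exact (Finset.mem_filter.1 hj).2)
  rw [Finset.card_insert_of_notMem hk] at this
  have := hv.card
  omega

/-- neighbouring vertex -/
theorem Vert.neighbour {V : Submodule ℝ (E → ℝ)} {s : ℕ} (h : Sys V s) {A : Finset E} {v : E → ℝ}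
    (hv : Vert V s A v) (hA : s ≤ A.card) {j : E} (hj : j ∈ A.filter fun k => v k = 0) :
    ∃ w, Vert V s A w ∧ 0 < w j ∧ (∀ k ∈ (A.filter fun k => v k = 0), k ≠ j → w k = 0) ∧
      ∃ q ∈ A, v q ≠ 0 ∧ w q = 0 := by
  set Tt := A.filter fun k => v k = 0 with hTt
  have hsub : Tt ⊆ A := Finset.filter_subset _ _
  have hcard := hv.card
  rw [← hTt] at hcard
  have hposT : ∀ k ∈ A \ Tt, 0 < v k := by
    intro k hk
    obtain ⟨hk1, hk2⟩ := Finset.mem_sdiff.1 hk
    exact lt_of_le_of_ne (hv.nonneg k hk1) (Ne.symm (hv.ne_zero h (by rw [← hTt]; exact hk2)))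
  have hne : (A \ Tt).Nonempty := by
    rw [← Finset.card_pos, Finset.card_sdiff_of_subset hsub]
    omega
  obtain ⟨q, hq⟩ := hne
  have hqT : q ∉ Tt := (Finset.mem_sdiff.1 hq).2
  obtain ⟨d0, hd0V, hd0, hd0J⟩ := h.dim (insert q (Tt.erase j)) (by
    have h1 : q ∉ Tt.erase j := fun hh => hqT (Finset.mem_of_mem_erase hh)
    rw [Finset.card_insert_of_notMem h1, Finset.card_erase_of_mem hj]
    have : 0 < Tt.card := Finset.card_pos.2 ⟨j, hj⟩
    omega)
  have hd0j : d0 j ≠ 0 := by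
    intro h0
    apply hd0
    refine h.eq_zero hd0V (insert q Tt) (by rw [Finset.card_insert_of_notMem hqT]; omega) ?_
    intro k hk
    rcases Finset.mem_insert.1 hk with rfl | hk
    · exact hd0J _ (Finset.mem_insert_self _ _)
    · by_cases hkj : k = j
      · rw [hkj]; exact h0
      · exact hd0J k (Finset.mem_insert_of_mem (Finset.mem_erase.2 ⟨hkj, hk⟩))
  obtain ⟨d, hdV, hdj, hdJ⟩ : ∃ d ∈ V, 0 < d j ∧ ∀ k ∈ Tt, k ≠ j → d k = 0 := by
    rcases lt_or_gt_of_ne hd0j with hlt | hgt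
    · refine ⟨-d0, V.neg_mem hd0V, by simpa using hlt, fun k hk hkj => ?_⟩
      have := hd0J k (Finset.mem_insert_of_mem (Finset.mem_erase.2 ⟨hkj, hk⟩))
      simp [this]
    · exact ⟨d0, hd0V, hgt, fun k hk hkj =>
        hd0J k (Finset.mem_insert_of_mem (Finset.mem_erase.2 ⟨hkj, hk⟩))⟩
  obtain ⟨q', hq', hmax⟩ := Finset.exists_max_image (A \ Tt) (fun k => -d k / v k) ⟨q, hq⟩
  set α := -d q' / v q' with hα
  have hq'A := (Finset.mem_sdiff.1 hq').1
  have hq'T := (Finset.mem_sdiff.1 hq').2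
  have hvq' := hposT q' hq'
  have hwq' : (d + α • v) q' = 0 := by
    simp only [Pi.add_apply, Pi.smul_apply, smul_eq_mul, hα]
    field_simp
    ring
  have hwTt : ∀ k ∈ Tt, k ≠ j → (d + α • v) k = 0 := by
    intro k hk hkj
    have h1 : v k = 0 := (Finset.mem_filter.1 hk).2
    simp [h1, hdJ k hk hkj]
  have hwj : 0 < (d + α • v) j := by
    have h1 : v j = 0 := (Finset.mem_filter.1 hj).2
    simp [h1, hdj]
  have hwV : d + α • v ∈ V := V.add_mem hdV (V.smul_mem _ hv.mem)
  have hwne : d + α • v ≠ 0 := by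
    intro h0
    rw [h0] at hwj
    simp at hwj
  have hwnn : ∀ k ∈ A, 0 ≤ (d + α • v) k := by
    intro k hk
    by_cases hkT : k ∈ Tt
    · by_cases hkj : k = j
      · rw [hkj]; exact hwj.le
      · exact (hwTt k hkT hkj).ge
    · have hk' : k ∈ A \ Tt := Finset.mem_sdiff.2 ⟨hk, hkT⟩
      have h1 := hmax k hk'
      have h2 := hposT k hk'
      rw [div_le_iff₀ h2] at h1
      simp only [Pi.add_apply, Pi.smul_apply, smul_eq_mul]
      linarith
  refine ⟨d + α • v, ⟨hwV, hwne, hwnn, ?_⟩, hwj, hwTt, q', hq'A, hvq'.ne', hwq'⟩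
  have hsub2 : insert q' (Tt.erase j) ⊆ A.filter fun k => (d + α • v) k = 0 := by
    intro k hk
    rcases Finset.mem_insert.1 hk with rfl | hk
    · exact Finset.mem_filter.2 ⟨hq'A, hwq'⟩
    · obtain ⟨hk1, hk2⟩ := Finset.mem_erase.1 hk
      exact Finset.mem_filter.2 ⟨hsub hk2, hwTt k hk2 hk1⟩
  have h1 : q' ∉ Tt.erase j := fun hh => hq'T (Finset.mem_of_mem_erase hh)
  have h2 : (insert q' (Tt.erase j)).card + 1 = s := by
    rw [Finset.card_insert_of_notMem h1, Finset.card_erase_of_mem hj]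
    have : 0 < Tt.card := Finset.card_pos.2 ⟨j, hj⟩
    omega
  have h3 := Finset.card_le_card hsub2
  have h4 := h.unif _ hwV hwne (A.filter fun k => (d + α • v) k = 0)
    (fun k hk => (Finset.mem_filter.1 hk).2)
  omega

/-- a vertex exists -/
theorem exists_vert {V : Submodule ℝ (E → ℝ)} {s : ℕ} (h : Sys V s) (A : Finset E)
    (hA : s ≤ A.card + 1) (v0 : E → ℝ) (hv0 : v0 ∈ V) (hne0 : v0 ≠ 0) (hnn : ∀ k ∈ A, 0 ≤ v0 k) :
    ∃ v, Vert V s A v := by
  classical
  -- choose the vector with the largest number of zeros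
  let P : ℕ → Prop := fun n => ∃ v ∈ V, v ≠ 0 ∧ (∀ k ∈ A, 0 ≤ v k) ∧
    (A.filter fun k => v k = 0).card = n
  have hP0 : P ((A.filter fun k => v0 k = 0).card) := ⟨v0, hv0, hne0, hnn, rfl⟩
  have hbd : ∀ n, P n → n ≤ A.card := by
    rintro n ⟨v, -, -, -, rfl⟩
    exact Finset.card_le_card (Finset.filter_subset _ _)
  have hfin := Nat.findGreatest_spec (P := P) (hbd _ hP0) hP0
  have hgr : ∀ n, Nat.findGreatest P A.card < n → ¬ P n := by
    intro n hn hPn
    exact absurd hPn (Nat.findGreatest_is_greatest hn (hbd n hPn))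
  set N := Nat.findGreatest P A.card
  obtain ⟨v, hvV, hvne, hvnn, hvN⟩ := hfin
  refine ⟨v, hvV, hvne, hvnn, ?_⟩
  set Tt := A.filter fun k => v k = 0 with hTt
  have hlt := h.unif v hvV hvne Tt (fun k hk => (Finset.mem_filter.1 hk).2)
  by_contra hcon
  have hTs : Tt.card + 1 < s := by omega
  have hsub : Tt ⊆ A := Finset.filter_subset _ _
  have hne : (A \ Tt).Nonempty := by
    rw [← Finset.card_pos, Finset.card_sdiff_of_subset hsub]
    omega
  obtain ⟨q, hq⟩ := hne
  obtain ⟨hqA, hqT⟩ := Finset.mem_sdiff.1 hq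
  have hvq : 0 < v q := by
    refine lt_of_le_of_ne (hvnn q hqA) fun h0 => hqT ?_
    rw [hTt]
    exact Finset.mem_filter.2 ⟨hqA, h0.symm⟩
  obtain ⟨d, hdV, hdne, hd0⟩ := h.dim (insert q Tt) (by
    rw [Finset.card_insert_of_notMem hqT]; omega)
  -- move in direction `d` or `-d`
  have key : ∀ d : E → ℝ, d ∈ V → d ≠ 0 → (∀ k ∈ insert q Tt, d k = 0) →
      (∃ k ∈ A, d k < 0) → False := by
    rintro d hdV hdne hd0 ⟨k0, hk0A, hk0⟩
    have hne' : (A.filter fun k => d k < 0).Nonempty := ⟨k0, Finset.mem_filter.2 ⟨hk0A, hk0⟩⟩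
    obtain ⟨k1, hk1, hmin⟩ := Finset.exists_min_image (A.filter fun k => d k < 0)
      (fun k => v k / (-d k)) hne'
    obtain ⟨hk1A, hk1d⟩ := Finset.mem_filter.1 hk1
    set θ := v k1 / (-d k1) with hθ
    have hθ0 : 0 ≤ θ := div_nonneg (hvnn k1 hk1A) (by linarith)
    have hwq : (v + θ • d) q = v q := by
      simp [hd0 q (Finset.mem_insert_self _ _)]
    have hwne : v + θ • d ≠ 0 := by
      intro h0
      rw [h0] at hwq
      simp only [Pi.zero_apply] at hwq
      linarith
    refine hgr ((A.filter fun k => (v + θ • d) k = 0).card) ?_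
      ⟨v + θ • d, V.add_mem hvV (V.smul_mem _ hdV), hwne, ?_, rfl⟩
    · have hk1T : k1 ∉ Tt := by
        intro hh
        have := hd0 k1 (Finset.mem_insert_of_mem hh)
        linarith
      have hss : insert k1 Tt ⊆ A.filter fun k => (v + θ • d) k = 0 := by
        intro k hk
        rcases Finset.mem_insert.1 hk with rfl | hk
        · refine Finset.mem_filter.2 ⟨hk1A, ?_⟩
          simp only [Pi.add_apply, Pi.smul_apply, smul_eq_mul, hθ]
          have : d k ≠ 0 := by linarith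
          field_simp
          ring
        · refine Finset.mem_filter.2 ⟨hsub hk, ?_⟩
          have h1 : v k = 0 := (Finset.mem_filter.1 hk).2
          simp [h1, hd0 k (Finset.mem_insert_of_mem hk)]
      have h1 := Finset.card_le_card hss
      rw [Finset.card_insert_of_notMem hk1T] at h1
      omega
    · intro k hk
      simp only [Pi.add_apply, Pi.smul_apply, smul_eq_mul]
      rcases lt_or_ge (d k) 0 with hdk | hdk
      · have h1 := hmin k (Finset.mem_filter.2 ⟨hk, hdk⟩)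
        rw [le_div_iff₀ (by linarith)] at h1
        have h2 : θ * -d k = -(θ * d k) := by ring
        linarith
      · have := mul_nonneg hθ0 hdk
        have := hvnn k hk
        linarith
  by_cases hneg : ∃ k ∈ A, d k < 0
  · exact key d hdV hdne hd0 hneg
  · push Not at hneg
    by_cases hpos : ∃ k ∈ A, 0 < d k
    · obtain ⟨k, hkA, hk⟩ := hpos
      exact key (-d) (V.neg_mem hdV) (neg_ne_zero.2 hdne) (fun k hk => by simp [hd0 k hk])
        ⟨k, hkA, by simpa using hk⟩
    · push Not at hpos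
      -- `d` vanishes on `A`, which has at least `s - 1` elements
      have hdA : ∀ k ∈ A, d k = 0 := fun k hk => le_antisymm (hpos k hk) (hneg k hk)
      have hsA := h.unif d hdV hdne A hdA
      -- then `d` has as many zeros in `A` as possible
      refine hgr A.card ?_ ⟨d, hdV, hdne, fun k hk => (hdA k hk).ge, ?_⟩
      · have : Tt.card < A.card := Finset.card_lt_card
          (Finset.ssubset_iff_subset_ne.2 ⟨hsub, fun hh => hqT (hh ▸ hqA)⟩)
        omega
      · rw [Finset.filter_true_of_mem hdA]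

end Pool.Agent.MP_e211d6_h89
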