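import Pool.Agent.Lib_MP_e211d6_h89.SelfDual

/-!
# Self-dual families of topes: the count
-/

namespace Pool.Agent.MP_e211d6_h89

open Finset

variable {E : Type*} [Fintype E] [DecidableEq E]
variable {L V : Submodule ℝ (E → ℝ)} {s : ℕ} {G : Finset E}

theorem Sys.exists_zero_set (h : Sys L s) {Z : Finset E} (hZ : Z.card + 1 = s) :
    ∃ u ∈ L, u ≠ 0 ∧ (∀ k ∈ Z, u k = 0) ∧ ∀ k ∉ Z, u k ≠ 0 := by
  obtain ⟨u, hu, hne, h0⟩ := h.dim Z (by omega)
  refine ⟨u, hu, hne, h0, fun k hk hk0 => ?_⟩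
  have := h.unif u hu hne (insert k Z) (by
    intro k' hk'
    rcases Finset.mem_insert.1 hk' with rfl | hk'
    · exact hk0
    · exact h0 k' hk')
  rw [Finset.card_insert_of_notMem hk] at this
  omega

theorem SD.balanced1 (h : SD L s G) : s ≤ G.card := by
  by_contra hcon
  push Not at hcon
  have h3 := h.three
  obtain ⟨Z, hGZ, -, hZ⟩ := Finset.exists_subsuperset_card_eq (Finset.subset_univ G)
    (by omega : G.card ≤ s - 1) (by rw [Finset.card_univ, h.card]; omega)
  obtain ⟨u, hu, hne, h0, hk⟩ := h.sys.exists_zero_set (Z := Z) (by omega)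
  have hT : ∀ P : Finset E, (∀ k ∉ Z, (k ∈ P ↔ 0 < u k)) → Tope L P := by
    intro P hP
    refine h.sys.tope_of_zero (by rw [h.card]; omega) hu (by omega) (fun k hkZ => ?_) h0
    refine ⟨fun hh => (hP k hkZ).1 hh, fun hh => ?_⟩
    exact lt_of_le_of_ne (not_lt.1 fun hpos => hh ((hP k hkZ).2 hpos)) (hk k hkZ)
  refine (h.dual (univ.filter fun k => 0 < u k)).1 (hT _ fun k _ => by simp) (hT _ fun k hkZ => ?_)
  have hkG : k ∉ G := fun hh => hkZ (hGZ hh)
  rw [Finset.mem_symmDiff, Finset.mem_filter]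
  simp [hkG]

theorem SD.balanced2 (h : SD L s G) : s ≤ Gᶜ.card := by
  by_contra hcon
  push Not at hcon
  have h3 := h.three
  obtain ⟨Z, hGZ, -, hZ⟩ := Finset.exists_subsuperset_card_eq (Finset.subset_univ Gᶜ)
    (by omega : Gᶜ.card ≤ s - 1) (by rw [Finset.card_univ, h.card]; omega)
  obtain ⟨u, hu, hne, h0, hk⟩ := h.sys.exists_zero_set (Z := Z) (by omega)
  have hT : ∀ u ∈ L, (∀ k ∈ Z, u k = 0) → (∀ k ∉ Z, u k ≠ 0) → ∀ P : Finset E,
      (∀ k ∉ Z, (k ∈ P ↔ 0 < u k)) → Tope L P := by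
    intro u hu h0 hk P hP
    refine h.sys.tope_of_zero (by rw [h.card]; omega) hu (by omega) (fun k hkZ => ?_) h0
    refine ⟨fun hh => (hP k hkZ).1 hh, fun hh => ?_⟩
    exact lt_of_le_of_ne (not_lt.1 fun hpos => hh ((hP k hkZ).2 hpos)) (hk k hkZ)
  refine (h.dual (univ.filter fun k => 0 < u k)).1 (hT u hu h0 hk _ fun k _ => by simp)
    (hT (-u) (L.neg_mem hu) (fun k hkZ => by simp [h0 k hkZ]) (fun k hkZ => by simp [hk k hkZ])
      _ fun k hkZ => ?_)
  have hkG : k ∈ G := by
    by_contra hh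
    exact hkZ (hGZ (Finset.mem_compl.2 hh))
  rw [Finset.mem_symmDiff, Finset.mem_filter, Pi.neg_apply, Left.neg_pos_iff]
  have := hk k hkZ
  constructor
  · rintro (⟨_, hh⟩ | ⟨_, hh⟩)
    · exact absurd hkG hh
    · exact lt_of_le_of_ne (not_lt.1 fun hpos => hh ⟨Finset.mem_univ _, hpos⟩) this
  · intro hh
    exact Or.inr ⟨hkG, fun h' => absurd h'.2 (not_lt.2 hh.le)⟩

open Classical in
theorem SD.eight (h : SD L s G) {X : Finset E} (hX : X.card + 3 = s) {i j : E} (hi : i ∉ X)
    (hj : j ∉ X) (hij : i ≠ j) :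
    8 ≤ ((Xᶜ.powerset.filter fun B => TW L X B).filter fun B => Vx L X B i j).card := by
  have hjX : i ∉ insert j X := by
    rw [Finset.mem_insert, not_or]
    exact ⟨hij, hi⟩
  have hcJ : (insert i (insert j X)).card + 1 = s := by
    rw [Finset.card_insert_of_notMem hjX, Finset.card_insert_of_notMem hj]
    omega
  obtain ⟨p, hp, hpne, hp0, hpk⟩ := h.sys.exists_zero_set hcJ
  have hpi : p i = 0 := hp0 i (by simp)
  have hpj : p j = 0 := hp0 j (by simp)
  have hpX : ∀ k ∈ X, p k = 0 := fun k hk => hp0 k (by simp [hk])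
  have hpk' : ∀ k, k ∉ X → k ≠ i → k ≠ j → p k ≠ 0 := fun k h1 h2 h3 => hpk k (by
    rw [Finset.mem_insert, Finset.mem_insert]
    tauto)
  let sg : Bool → ℝ := fun a => if a then 1 else -1
  let f : Bool × Bool × Bool → Finset E := fun x =>
    (univ.filter fun k => k ∉ X ∧ k ≠ i ∧ k ≠ j ∧ 0 < sg x.1 * p k) ∪
      ((if x.2.1 then {i} else ∅) ∪ (if x.2.2 then {j} else ∅))
  have hfi : ∀ x, i ∈ f x ↔ x.2.1 = true := by
    intro x
    simp only [f, Finset.mem_union, Finset.mem_filter]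
    by_cases h1 : x.2.1 = true <;> by_cases h2 : x.2.2 = true <;> simp [h1, h2, hij]
  have hfj : ∀ x, j ∈ f x ↔ x.2.2 = true := by
    intro x
    simp only [f, Finset.mem_union, Finset.mem_filter]
    by_cases h1 : x.2.1 = true <;> by_cases h2 : x.2.2 = true <;> simp [h1, h2, hij.symm]
  have hfk : ∀ x k, k ≠ i → k ≠ j → (k ∈ f x ↔ k ∉ X ∧ 0 < sg x.1 * p k) := by
    intro x k h1 h2
    simp only [f, Finset.mem_union, Finset.mem_filter]
    by_cases h3 : x.2.1 = true <;> by_cases h4 : x.2.2 = true <;> simp [h1, h2, h3, h4]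
  -- another element outside `X`
  obtain ⟨r, hrX, hri, hrj⟩ : ∃ r, r ∉ X ∧ r ≠ i ∧ r ≠ j := by
    have h1 : (insert i (insert j X)).card < Fintype.card E := by
      rw [h.card]
      omega
    obtain ⟨r, hr⟩ : ∃ r, r ∉ insert i (insert j X) := by
      by_contra hcon
      push Not at hcon
      rw [Finset.eq_univ_iff_forall.2 hcon, Finset.card_univ] at h1
      exact lt_irrefl _ h1
    rw [Finset.mem_insert, Finset.mem_insert] at hr
    exact ⟨r, by tauto, by tauto, by tauto⟩
  have hfinj : Function.Injective f := by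
    rintro ⟨a, b, c⟩ ⟨a', b', c'⟩ hff
    have e1 : b = true ↔ b' = true := by
      rw [← hfi (a, b, c), ← hfi (a', b', c'), hff]
    have e2 : c = true ↔ c' = true := by
      rw [← hfj (a, b, c), ← hfj (a', b', c'), hff]
    have e3 : (0 < sg a * p r) ↔ (0 < sg a' * p r) := by
      have h1 := hfk (a, b, c) r hri hrj
      have h2 := hfk (a', b', c') r hri hrj
      rw [hff] at h1
      simp only [hrX, not_false_eq_true, true_and] at h1 h2
      exact h1.symm.trans h2
    have hr0 := hpk' r hrX hri hrj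
    have hs : ∀ a : Bool, (0 < sg a * p r ↔ (a = true ↔ 0 < p r)) := by
      intro a
      cases a
      · have h1 : sg false = -1 := rfl
        rw [h1]
        constructor
        · intro hh
          exact ⟨fun h2 => absurd h2 (by decide), fun h2 => by linarith⟩
        · intro hh
          have h2 : ¬ 0 < p r := fun h3 => absurd (hh.2 h3) (by decide)
          have h3 : p r < 0 := lt_of_le_of_ne (not_lt.1 h2) hr0
          linarith
      · have h1 : sg true = 1 := rfl
        rw [h1, one_mul]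
        exact ⟨fun hh => ⟨fun _ => hh, fun _ => rfl⟩, fun hh => hh.1 rfl⟩
    have e4 : a = a' := by
      rw [hs a, hs a'] at e3
      have : a = true ↔ a' = true := by tauto
      cases a <;> cases a' <;> simp_all
    have e5 : b = b' := by
      cases b <;> cases b' <;> simp_all
    have e6 : c = c' := by
      cases c <;> cases c' <;> simp_all
    rw [e4, e5, e6]
  have hcard : (univ.image f).card = 8 := by
    rw [Finset.card_image_of_injective _ hfinj]
    rfl
  rw [← hcard]
  refine Finset.card_le_card fun B hB => ?_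
  obtain ⟨x, -, rfl⟩ := Finset.mem_image.1 hB
  have hdisj : Disjoint (f x) X := by
    rw [Finset.disjoint_left]
    intro k hk hkX
    by_cases hki : k = i
    · exact hi (hki ▸ hkX)
    · by_cases hkj : k = j
      · exact hj (hkj ▸ hkX)
      · exact ((hfk x k hki hkj).1 hk).1 hkX
  have hvx : Vx L X (f x) i j := by
    refine ⟨sg x.1 • p, L.smul_mem _ hp, fun k hk => by simp [hpX k hk], by simp [hpi],
      by simp [hpj], fun k hkX hki hkj => ?_⟩
    rw [hfk x k hki hkj]
    simp only [Pi.smul_apply, smul_eq_mul]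
    refine ⟨fun hh => hh.2, fun hh => ?_⟩
    have h1 : sg x.1 * p k ≠ 0 := by
      refine mul_ne_zero ?_ (hpk' k hkX hki hkj)
      simp only [sg]
      split_ifs <;> norm_num
    exact lt_of_le_of_ne (not_lt.1 fun hpos => hh ⟨hkX, hpos⟩) h1
  refine Finset.mem_filter.2 ⟨Finset.mem_filter.2 ⟨Finset.mem_powerset.2 fun k hk =>
    Finset.mem_compl.2 (Finset.disjoint_left.1 hdisj hk), ?_⟩, hvx⟩
  exact h.tw_of_vx hX hi hj hvx (fun k _ _ => Iff.rfl) hdisj

open Classical in
theorem SD.two (h : SD L s G) {X : Finset E} (hX : X.card + 3 = s) {P : Finset (E × E)}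
    (hP : ∀ x ∈ P, (x.1 ∉ X ∧ x.1 ∈ G) ∧ (x.2 ∉ X ∧ x.2 ∉ G)) {B : Finset E} (hB : TW L X B) :
    (P.filter fun x => Vx L X B x.1 x.2).card ≤ 2 := by
  by_contra hcon
  push Not at hcon
  obtain ⟨a, b, c, ha, hb, hc, hab, hac, hbc⟩ := Finset.two_lt_card_iff.1 hcon
  obtain ⟨ha1, ha2⟩ := Finset.mem_filter.1 ha
  obtain ⟨hb1, hb2⟩ := Finset.mem_filter.1 hb
  obtain ⟨hc1, hc2⟩ := Finset.mem_filter.1 hc
  have hne : ∀ x y : E × E, x ≠ y → x.1 ≠ y.1 ∨ x.2 ≠ y.2 := by
    intro x y hxy
    by_contra hh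
    push Not at hh
    exact hxy (Prod.ext hh.1 hh.2)
  refine h.no_three hX hB (i := ![a.1, b.1, c.1]) (j := ![a.2, b.2, c.2]) ?_ ?_ ?_ ?_
  · intro r
    fin_cases r
    · exact (hP a ha1).1
    · exact (hP b hb1).1
    · exact (hP c hc1).1
  · intro r
    fin_cases r
    · exact (hP a ha1).2
    · exact (hP b hb1).2
    · exact (hP c hc1).2
  · intro r
    fin_cases r
    · exact ha2
    · exact hb2
    · exact hc2
  · intro r t hrt
    fin_cases r <;> fin_cases t
    · exact absurd rfl hrt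
    · exact hne a b hab
    · exact hne a c hac
    · exact hne b a hab.symm
    · exact absurd rfl hrt
    · exact hne b c hbc
    · exact hne c a hac.symm
    · exact hne c b hbc.symm
    · exact absurd rfl hrt

theorem two_mul_choose (n : ℕ) : 2 * (n + 1).choose 2 = (n + 1) * n := by
  induction n with
  | zero => rfl
  | succ n ih =>
    rw [Nat.choose_succ_succ, mul_add, ih, Nat.choose_one_right]
    ring

open Classical in
theorem SD.cells (h : SD L s G) (hV : Sys V s) (horth : ∀ u ∈ L, ∀ v ∈ V, ∑ k, u k * v k = 0)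
    {X : Finset E} (hX : X.card + 3 = s) :
    2 * (Xᶜ.powerset.filter fun B => TW L X B).card ≤ 2 * (2 + (s + 2) * (s + 3)) := by
  have hXc : (Xᶜ).card = s + 3 := by
    rw [Finset.card_compl, h.card]
    omega
  obtain ⟨e, he⟩ : (Xᶜ).Nonempty := by
    rw [← Finset.card_pos]
    omega
  have heX : e ∉ X := Finset.mem_compl.1 he
  set T := Xᶜ.powerset.filter fun B => TW L X B with hT
  set T1 := T.filter fun B => e ∈ B with hT1
  set T2 := T.filter fun B => e ∉ B with hT2
  have hsum : T1.card + T2.card = T.card := Finset.card_filter_add_card_filter_not _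
  have h12 : T1.card ≤ T2.card := by
    refine Finset.card_le_card_of_injOn (fun B => Xᶜ \ B) (fun B hB => ?_) ?_
    · obtain ⟨hB1, heB⟩ := Finset.mem_filter.1 (Finset.mem_coe.1 hB)
      obtain ⟨hB2, hB3⟩ := Finset.mem_filter.1 hB1
      refine Finset.mem_coe.2 (Finset.mem_filter.2 ⟨Finset.mem_filter.2
        ⟨Finset.mem_powerset.2 Finset.sdiff_subset, ?_⟩, fun hh => ?_⟩)
      · obtain ⟨u, hu, h0, h1, h2⟩ := hB3
        refine ⟨-u, L.neg_mem hu, fun k hk => by simp [h0 k hk], fun k hk => ?_, fun k hkX hk => ?_⟩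
        · obtain ⟨hk1, hk2⟩ := Finset.mem_sdiff.1 hk
          have := h2 k (Finset.mem_compl.1 hk1) hk2
          simp only [Pi.neg_apply]
          linarith
        · have hkB : k ∈ B := by
            by_contra hh
            exact hk (Finset.mem_sdiff.2 ⟨Finset.mem_compl.2 hkX, hh⟩)
          have := h1 k hkB
          simp only [Pi.neg_apply]
          linarith
      · exact (Finset.mem_sdiff.1 hh).2 heB
    · intro B hB B' hB' hBB
      have h1 := Finset.mem_powerset.1 (Finset.mem_filter.1 (Finset.mem_filter.1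
        (Finset.mem_coe.1 hB)).1).1
      have h2 := Finset.mem_powerset.1 (Finset.mem_filter.1 (Finset.mem_filter.1
        (Finset.mem_coe.1 hB')).1).1
      have h3 : Xᶜ \ (Xᶜ \ B) = Xᶜ \ (Xᶜ \ B') := by
        have : Xᶜ \ B = Xᶜ \ B' := hBB
        rw [this]
      rwa [Finset.sdiff_sdiff_eq_self h1, Finset.sdiff_sdiff_eq_self h2] at h3
  have hsh : ∀ Z, T2.Shatters Z → Z ⊆ Xᶜ.erase e ∧ Z.card ≤ 2 := by
    intro Z hZ
    have hmem : ∀ B ∈ T2, B ⊆ Xᶜ.erase e := by
      intro B hB k hk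
      obtain ⟨hB1, heB⟩ := Finset.mem_filter.1 hB
      have hB2 := Finset.mem_powerset.1 (Finset.mem_filter.1 hB1).1
      exact Finset.mem_erase.2 ⟨by rintro rfl; exact heB hk, hB2 hk⟩
    have hZsub : Z ⊆ Xᶜ.erase e := by
      obtain ⟨B, hB, hZB⟩ := hZ (Finset.Subset.refl Z)
      intro k hk
      have : k ∈ Z ∩ B := by rw [hZB]; exact hk
      exact hmem B hB (Finset.mem_inter.1 this).2
    refine ⟨hZsub, ?_⟩
    by_contra hcon
    push Not at hcon
    obtain ⟨Z3, hZ3, hZ3c⟩ := Finset.exists_subset_card_eq (by omega : 3 ≤ Z.card)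
    have hsh3 := hZ.mono_right hZ3
    have hZ3X : ∀ k ∈ Z3, k ∉ X ∧ k ≠ e := fun k hk => by
      have := Finset.mem_erase.1 (hZsub (hZ3 hk))
      exact ⟨Finset.mem_compl.1 this.2, this.1⟩
    have hU : (insert e (X ∪ Z3)).card = s + 1 := by
      rw [Finset.card_insert_of_notMem, Finset.card_union_of_disjoint]
      · omega
      · rw [Finset.disjoint_left]
        intro k hk hk'
        exact (hZ3X k hk').1 hk
      · rw [Finset.mem_union, not_or]
        exact ⟨heX, fun hh => (hZ3X e hh).2 rfl⟩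
    obtain ⟨v, hv, hvne, hv0, hvk⟩ := hV.exists_zero_set (Z := (insert e (X ∪ Z3))ᶜ) (by
      rw [Finset.card_compl, h.card]
      omega)
    have hve : v e ≠ 0 := hvk e (by simp)
    obtain ⟨v, hv, hv0, hve⟩ : ∃ v ∈ V, (∀ k ∈ (insert e (X ∪ Z3))ᶜ, v k = 0) ∧ v e < 0 := by
      rcases lt_or_gt_of_ne hve with hh | hh
      · exact ⟨v, hv, hv0, hh⟩
      · exact ⟨-v, V.neg_mem hv, fun k hk => by simp [hv0 k hk], by simpa using hh⟩
    obtain ⟨B, hB, hBt⟩ := hsh3 (Finset.filter_subset (fun k => 0 < v k) Z3)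
    obtain ⟨hB1, heB⟩ := Finset.mem_filter.1 hB
    obtain ⟨u, hu, hu0, hu1, hu2⟩ := (Finset.mem_filter.1 hB1).2
    have hpos : 0 < ∑ k, u k * v k := by
      refine Finset.sum_pos' (fun k _ => ?_) ⟨e, Finset.mem_univ _, ?_⟩
      · by_cases hkX : k ∈ X
        · rw [hu0 k hkX, zero_mul]
        · by_cases hke : k = e
          · rw [hke]
            exact (mul_pos_of_neg_of_neg (hu2 e heX heB) hve).le
          · by_cases hkZ : k ∈ Z3
            · by_cases hkB : k ∈ B
              · have h1 : k ∈ Z3.filter fun k => 0 < v k := by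
                  rw [← hBt]
                  exact Finset.mem_inter.2 ⟨hkZ, hkB⟩
                exact (mul_pos (hu1 k hkB) (Finset.mem_filter.1 h1).2).le
              · have h1 : ¬ 0 < v k := by
                  intro hh
                  have : k ∈ Z3 ∩ B := by
                    rw [hBt]
                    exact Finset.mem_filter.2 ⟨hkZ, hh⟩
                  exact hkB (Finset.mem_inter.1 this).2
                exact mul_nonneg_of_nonpos_of_nonpos (hu2 k hkX hkB).le (not_lt.1 h1)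
            · rw [hv0 k (by
                rw [Finset.mem_compl, Finset.mem_insert, Finset.mem_union]
                tauto), mul_zero]
      · exact mul_pos_of_neg_of_neg (hu2 e heX heB) hve
    rw [horth u hu v hv] at hpos
    exact lt_irrefl _ hpos
  have hT2le : T2.card ≤ 1 + (s + 2) + (s + 2).choose 2 := by
    refine (Finset.card_le_card_shatterer T2).trans ?_
    have h1 : T2.shatterer ⊆ ((Finset.powersetCard 0 (Xᶜ.erase e)) ∪
        (Finset.powersetCard 1 (Xᶜ.erase e))) ∪ Finset.powersetCard 2 (Xᶜ.erase e) := by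
      intro Z hZ
      obtain ⟨h1, h2⟩ := hsh Z (Finset.mem_shatterer.1 hZ)
      rw [Finset.mem_union, Finset.mem_union, Finset.mem_powersetCard, Finset.mem_powersetCard,
        Finset.mem_powersetCard]
      have : Z.card = 0 ∨ Z.card = 1 ∨ Z.card = 2 := by omega
      tauto
    refine (Finset.card_le_card h1).trans ?_
    have hce : (Xᶜ.erase e).card = s + 2 := by
      rw [Finset.card_erase_of_mem he]
      omega
    refine (Finset.card_union_le _ _).trans ?_
    have h2 := Finset.card_union_le (Finset.powersetCard 0 (Xᶜ.erase e))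
      (Finset.powersetCard 1 (Xᶜ.erase e))
    rw [Finset.card_powersetCard, Finset.card_powersetCard, hce, Nat.choose_zero_right,
      Nat.choose_one_right] at h2
    rw [Finset.card_powersetCard, hce]
    omega
  have h5 := two_mul_choose (s + 1)
  have h6 : (s + 2) * (s + 3) = 2 * (s + 2) + (s + 1 + 1) * (s + 1) := by ring
  have h7 : s + 1 + 1 = s + 2 := rfl
  rw [h7] at h5 h6
  omega

open Classical in
theorem SD.false (h : SD L s G) (hV : Sys V s)
    (horth : ∀ u ∈ L, ∀ v ∈ V, ∑ k, u k * v k = 0) : False := by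
  have h3 := h.three
  have hb1 := h.balanced1
  have hb2 := h.balanced2
  obtain ⟨M1, hM1, hM1c⟩ := Finset.exists_subset_card_eq (by omega : (s + 3) / 2 ≤ G.card)
  obtain ⟨M2, hM2, hM2c⟩ := Finset.exists_subset_card_eq
    (by omega : (s + 3) - (s + 3) / 2 ≤ Gᶜ.card)
  have hdisj : Disjoint M1 M2 := by
    rw [Finset.disjoint_left]
    intro k hk hk'
    exact Finset.mem_compl.1 (hM2 hk') (hM1 hk)
  have hMc : (M1 ∪ M2).card = s + 3 := by
    rw [Finset.card_union_of_disjoint hdisj]
    omega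
  set X := (M1 ∪ M2)ᶜ with hXdef
  have hX : X.card + 3 = s := by
    rw [hXdef, Finset.card_compl, h.card]
    omega
  have hP : ∀ x ∈ M1 ×ˢ M2, (x.1 ∉ X ∧ x.1 ∈ G) ∧ (x.2 ∉ X ∧ x.2 ∉ G) := by
    intro x hx
    obtain ⟨h1, h2⟩ := Finset.mem_product.1 hx
    refine ⟨⟨fun hh => ?_, hM1 h1⟩, fun hh => ?_, Finset.mem_compl.1 (hM2 h2)⟩
    · exact Finset.mem_compl.1 hh (Finset.mem_union_left _ h1)
    · exact Finset.mem_compl.1 hh (Finset.mem_union_right _ h2)
  set T := Xᶜ.powerset.filter fun B => TW L X B with hT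
  have hcount := Finset.sum_card_bipartiteAbove_eq_sum_card_bipartiteBelow
    (s := M1 ×ˢ M2) (t := T) (fun (x : E × E) (B : Finset E) => Vx L X B x.1 x.2)
  have hlow : 8 * (M1 ×ˢ M2).card ≤ ∑ x ∈ M1 ×ˢ M2,
      (T.bipartiteAbove (fun (x : E × E) (B : Finset E) => Vx L X B x.1 x.2) x).card := by
    rw [mul_comm, ← smul_eq_mul]
    refine Finset.card_nsmul_le_sum _ _ _ fun x hx => ?_
    obtain ⟨⟨h1, h2⟩, h4, h5⟩ := hP x hx
    exact h.eight hX h1 h4 (by intro hh; exact h5 (hh ▸ h2))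
  have hup : ∑ B ∈ T, ((M1 ×ˢ M2).bipartiteBelow
      (fun (x : E × E) (B : Finset E) => Vx L X B x.1 x.2) B).card ≤ T.card * 2 := by
    rw [← smul_eq_mul]
    refine Finset.sum_le_card_nsmul _ _ _ fun B hB => ?_
    exact h.two hX hP (Finset.mem_filter.1 hB).2
  have hcells := h.cells hV horth hX
  rw [← hT] at hcells
  rw [hcount] at hlow
  have h4 : 8 * (M1 ×ˢ M2).card ≤ 2 * (2 + (s + 2) * (s + 3)) := by
    omega
  rw [Finset.card_product, hM1c, hM2c] at h4
  obtain ⟨m, hm⟩ : ∃ m, s + 3 = 2 * m ∨ s + 3 = 2 * m + 1 := ⟨(s + 3) / 2, by omega⟩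
  rcases hm with hm | hm
  · have e1 : (s + 3) / 2 = m := by omega
    have e2 : (s + 3) - (s + 3) / 2 = m := by omega
    have e3 : s + 2 = 2 * m - 1 := by omega
    rw [e2, e1, e3, hm] at h4
    obtain ⟨r, rfl⟩ : ∃ r, m = r + 1 := ⟨m - 1, by omega⟩
    have e4 : 2 * (r + 1) - 1 = 2 * r + 1 := by omega
    rw [e4] at h4
    have : 2 ≤ r := by omega
    nlinarith
  · have e1 : (s + 3) / 2 = m := by omega
    have e2 : (s + 3) - (s + 3) / 2 = m + 1 := by omega
    have e3 : s + 2 = 2 * m := by omega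
    rw [e2, e1, e3, hm] at h4
    have : 3 ≤ m := by omega
    nlinarith

end Pool.Agent.MP_e211d6_h89
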