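import Pool.Agent.Lib_MP_e211d6_h89.Good

/-!
# Point configurations
-/

namespace Pool.Agent.MP_e211d6_h89

open Finset

variable {ι : Type*} [Fintype ι] [DecidableEq ι] {d : ℕ}

/-- the vector `(1, x)` -/
noncomputable def lift (x : EuclideanSpace ℝ (Fin d)) : Fin (d + 1) → ℝ :=
  Fin.cons 1 (fun m => x m)

/-- the affine dependences of a configuration -/
noncomputable def depMap (x : ι → EuclideanSpace ℝ (Fin d)) : (ι → ℝ) →ₗ[ℝ] (Fin (d + 1) → ℝ) :=
  Fintype.linearCombination ℝ fun i => lift (x i)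

/-- the affine dependences of a configuration -/
noncomputable def dep (x : ι → EuclideanSpace ℝ (Fin d)) : Submodule ℝ (ι → ℝ) :=
  LinearMap.ker (depMap x)

omit [DecidableEq ι] in
theorem mem_dep {x : ι → EuclideanSpace ℝ (Fin d)} {w : ι → ℝ} :
    w ∈ dep x ↔ ∀ c, ∑ i, w i * lift (x i) c = 0 := by
  rw [dep, LinearMap.mem_ker, depMap, Fintype.linearCombination_apply]
  constructor
  · intro h c
    have := congrFun h c
    simpa [Finset.sum_apply] using this
  · intro h
    funext c
    simpa [Finset.sum_apply] using h c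

/-- general position: the determinant of any `d + 1` lifted points is non-zero -/
def Generic (x : ι → EuclideanSpace ℝ (Fin d)) : Prop :=
  ∀ f : Fin (d + 1) → ι, Function.Injective f →
    Matrix.det (Matrix.of fun r c => lift (x (f r)) c) ≠ 0

theorem Generic.sys {x : ι → EuclideanSpace ℝ (Fin d)} (hx : Generic x) {s : ℕ}
    (hs : s + (d + 1) = Fintype.card ι) : Sys (dep x) s := by
  refine ⟨fun v hv hne Z hZ => ?_, fun J hJ => ?_⟩
  · by_contra hcon
    push Not at hcon
    apply hne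
    have h1 : (Zᶜ).card ≤ d + 1 := by
      rw [Finset.card_compl]
      omega
    obtain ⟨T, hZT, -, hTc⟩ := Finset.exists_subsuperset_card_eq (Finset.subset_univ Zᶜ) h1
      (by rw [Finset.card_univ]; omega)
    let f : Fin (d + 1) → ι := fun r => (T.equivFinOfCardEq hTc).symm r
    have hf : Function.Injective f := fun r r' h =>
      (T.equivFinOfCardEq hTc).symm.injective (Subtype.ext h)
    have hfT : ∀ i ∈ T, ∃ r, f r = i := fun i hi =>
      ⟨T.equivFinOfCardEq hTc ⟨i, hi⟩, by simp [f]⟩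
    have hsupp : ∀ i, (∀ r, f r ≠ i) → v i = 0 := by
      intro i hi
      by_contra hvi
      have h2 : i ∈ Zᶜ := Finset.mem_compl.2 fun hh => hvi (hZ i hh)
      obtain ⟨r, hr⟩ := hfT i (hZT h2)
      exact hi r hr
    have h3 : Matrix.vecMul (fun r => v (f r)) (Matrix.of fun r c => lift (x (f r)) c) = 0 := by
      funext c
      rw [Matrix.vecMul, dotProduct]
      simp only [Matrix.of_apply, Pi.zero_apply]
      rw [← mem_dep.1 hv c]
      rw [← Finset.sum_image (s := univ) (g := f) (f := fun i => v i * lift (x i) c)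
        (fun a _ b _ h => hf h)]
      refine Finset.sum_subset (Finset.subset_univ _) fun i _ hi => ?_
      rw [hsupp i fun r hr => hi (Finset.mem_image.2 ⟨r, Finset.mem_univ _, hr⟩), zero_mul]
    have h4 := Matrix.eq_zero_of_vecMul_eq_zero (hx f hf) h3
    funext i
    by_cases hi : ∃ r, f r = i
    · obtain ⟨r, rfl⟩ := hi
      exact congrFun h4 r
    · push Not at hi
      exact hsupp i hi
  · let L : (ι → ℝ) →ₗ[ℝ] (J → ℝ) × (Fin (d + 1) → ℝ) :=
      (LinearMap.funLeft ℝ ℝ (fun j : J => (j : ι))).prod (depMap x)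
    have hlt : Module.finrank ℝ ((J → ℝ) × (Fin (d + 1) → ℝ)) < Module.finrank ℝ (ι → ℝ) := by
      rw [Module.finrank_prod, Module.finrank_fintype_fun_eq_card,
        Module.finrank_fintype_fun_eq_card, Module.finrank_fintype_fun_eq_card, Fintype.card_coe,
        Fintype.card_fin]
      omega
    have hker := LinearMap.ker_ne_bot_of_finrank_lt (f := L) hlt
    obtain ⟨v, hv, hne⟩ := (Submodule.ne_bot_iff _).1 hker
    have h1 : L v = 0 := hv
    refine ⟨v, ?_, hne, fun j hj => ?_⟩
    · exact (Prod.ext_iff.1 h1).2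
    · exact congrFun (Prod.ext_iff.1 h1).1 ⟨j, hj⟩

/-! ### closedness -/

theorem isClosed_wit (A : Finset ι) (k : ι) :
    IsClosed {x : ι → EuclideanSpace ℝ (Fin d) | Wit (dep x) A k} := by
  have hcpt : CompactSpace (Metric.sphere (0 : ι → ℝ) 1) :=
    isCompact_iff_compactSpace.1 (isCompact_sphere _ _)
  let C : Set (Metric.sphere (0 : ι → ℝ) 1 × (ι → EuclideanSpace ℝ (Fin d))) :=
    {p | (p.1 : ι → ℝ) k = 0 ∧ (∀ i ∈ A, 0 ≤ (p.1 : ι → ℝ) i) ∧ (∀ i ∉ A, (p.1 : ι → ℝ) i ≤ 0) ∧
      ∀ c, ∑ i, (p.1 : ι → ℝ) i * lift (p.2 i) c = 0}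
  have hw : ∀ i, Continuous fun p : Metric.sphere (0 : ι → ℝ) 1 ×
      (ι → EuclideanSpace ℝ (Fin d)) => (p.1 : ι → ℝ) i := fun i =>
    (continuous_apply i).comp (continuous_subtype_val.comp continuous_fst)
  have hl : ∀ i c, Continuous fun p : Metric.sphere (0 : ι → ℝ) 1 ×
      (ι → EuclideanSpace ℝ (Fin d)) => lift (p.2 i) c := by
    intro i c
    refine Fin.cases ?_ (fun m => ?_) c
    · simp only [lift, Fin.cons_zero]
      exact continuous_const
    · simp only [lift, Fin.cons_succ]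
      fun_prop
  have hC : IsClosed C := by
    have h1 : C = ({p | (p.1 : ι → ℝ) k = 0} ∩ (⋂ i ∈ A, {p | 0 ≤ (p.1 : ι → ℝ) i}) ∩
        (⋂ i ∈ Aᶜ, {p | (p.1 : ι → ℝ) i ≤ 0}) ∩
        ⋂ c, {p | ∑ i, (p.1 : ι → ℝ) i * lift (p.2 i) c = 0}) := by
      ext p
      simp only [C, Set.mem_setOf_eq, Set.mem_inter_iff, Set.mem_iInter, Finset.mem_compl]
      tauto
    rw [h1]
    refine (((isClosed_eq (hw k) continuous_const).inter ?_).inter ?_).inter ?_
    · exact isClosed_biInter fun i _ => isClosed_le continuous_const (hw i)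
    · exact isClosed_biInter fun i _ => isClosed_le (hw i) continuous_const
    · refine isClosed_iInter fun c => isClosed_eq ?_ continuous_const
      exact continuous_finset_sum _ fun i _ => (hw i).mul (hl i c)
  have himg : {x : ι → EuclideanSpace ℝ (Fin d) | Wit (dep x) A k} = Prod.snd '' C := by
    ext x
    constructor
    · rintro ⟨w, hw, hne, hk, hA, hA'⟩
      have hn : 0 < ‖w‖ := norm_pos_iff.2 hne
      refine ⟨(⟨‖w‖⁻¹ • w, ?_⟩, x), ⟨?_, fun i hi => ?_, fun i hi => ?_, fun c => ?_⟩, rfl⟩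
      · rw [mem_sphere_zero_iff_norm, norm_smul, norm_inv, norm_norm, inv_mul_cancel₀ hn.ne']
      · simp [hk]
      · simp only [Pi.smul_apply, smul_eq_mul]
        exact mul_nonneg (inv_nonneg.2 hn.le) (hA i hi)
      · simp only [Pi.smul_apply, smul_eq_mul]
        exact mul_nonpos_of_nonneg_of_nonpos (inv_nonneg.2 hn.le) (hA' i hi)
      · have := mem_dep.1 hw c
        simp only [Pi.smul_apply, smul_eq_mul, mul_assoc]
        rw [← Finset.mul_sum, this, mul_zero]
    · rintro ⟨⟨w, y⟩, ⟨hk, hA, hA', hc⟩, rfl⟩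
      refine ⟨(w : ι → ℝ), mem_dep.2 hc, fun h0 => ?_, hk, hA, hA'⟩
      have := w.2
      rw [mem_sphere_zero_iff_norm, h0, norm_zero] at this
      exact zero_ne_one this
  rw [himg]
  exact isClosedMap_snd_of_compactSpace _ hC

theorem isClosed_good (s : ℕ) : IsClosed {x : ι → EuclideanSpace ℝ (Fin d) | Good (dep x) s} := by
  have h1 : {x : ι → EuclideanSpace ℝ (Fin d) | Good (dep x) s} =
      ⋃ A : Finset ι, ⋃ F ∈ {F : Finset ι | 2 * s ≤ F.card + 1}, ⋂ e ∈ F,
        {x : ι → EuclideanSpace ℝ (Fin d) | Wit (dep x) A e} := by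
    ext x
    simp only [Good, Set.mem_setOf_eq, Set.mem_iUnion, Set.mem_iInter, exists_prop]
  rw [h1]
  refine isClosed_iUnion_of_finite fun A => ?_
  refine Set.Finite.isClosed_biUnion (Set.toFinite _) fun F _ => ?_
  exact isClosed_biInter fun e _ => isClosed_wit A e

/-! ### general position by perturbation -/

omit [Fintype ι] [DecidableEq ι] in
theorem lift_lineMap (x m : ι → EuclideanSpace ℝ (Fin d)) (t : ℝ) (i : ι) (c : Fin (d + 1)) :
    lift ((1 - t) • x i + t • m i) c = (1 - t) * lift (x i) c + t * lift (m i) c := by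
  refine Fin.cases ?_ (fun k => ?_) c
  · simp [lift]
  · simp [lift]

theorem exists_generic (ι : Type*) [Fintype ι] [DecidableEq ι] (d : ℕ) :
    ∃ m : ι → EuclideanSpace ℝ (Fin d), Generic m := by
  let g : ι → ℝ := fun i => ((Fintype.equivFin ι i : ℕ) : ℝ)
  have hg : Function.Injective g := by
    intro i j h
    have h1 : ((Fintype.equivFin ι i : ℕ) : ℝ) = ((Fintype.equivFin ι j : ℕ) : ℝ) := h
    have h2 : (Fintype.equivFin ι i : ℕ) = (Fintype.equivFin ι j : ℕ) := by exact_mod_cast h1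
    exact (Fintype.equivFin ι).injective (Fin.ext h2)
  refine ⟨fun i => WithLp.toLp 2 fun c : Fin d => g i ^ ((c : ℕ) + 1), fun f hf => ?_⟩
  have h1 : (Matrix.of fun r c => lift (WithLp.toLp 2 fun c : Fin d => g (f r) ^ ((c : ℕ) + 1)) c) =
      Matrix.vandermonde fun r => g (f r) := by
    ext r c
    rw [Matrix.vandermonde_apply, Matrix.of_apply]
    refine Fin.cases ?_ (fun k => ?_) c
    · simp [lift]
    · simp [lift]
  rw [h1]
  exact Matrix.det_vandermonde_ne_zero_iff.2 (hg.comp hf)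

theorem finite_bad (x m : ι → EuclideanSpace ℝ (Fin d)) (hm : Generic m) :
    {t : ℝ | ¬ Generic fun i => (1 - t) • x i + t • m i}.Finite := by
  classical
  have h1 : {t : ℝ | ¬ Generic fun i => (1 - t) • x i + t • m i} ⊆
      ⋃ f : {f : Fin (d + 1) → ι // Function.Injective f},
        {t : ℝ | Matrix.det (Matrix.of fun r c =>
          lift ((1 - t) • x (f.1 r) + t • m (f.1 r)) c) = 0} := by
    intro t ht
    simp only [Generic, Set.mem_setOf_eq, not_forall, not_not] at ht
    obtain ⟨f, hf, hdet⟩ := ht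
    exact Set.mem_iUnion.2 ⟨⟨f, hf⟩, hdet⟩
  refine (Set.finite_iUnion fun f => ?_).subset h1
  let P : Polynomial ℝ := Matrix.det (Matrix.of fun r c =>
    (1 - Polynomial.X) * Polynomial.C (lift (x (f.1 r)) c) +
      Polynomial.X * Polynomial.C (lift (m (f.1 r)) c))
  have hP : ∀ t, P.eval t = Matrix.det (Matrix.of fun r c =>
      lift ((1 - t) • x (f.1 r) + t • m (f.1 r)) c) := by
    intro t
    rw [← Polynomial.coe_evalRingHom, RingHom.map_det]
    congr 1
    ext r c
    simp only [RingHom.mapMatrix_apply, Matrix.map_apply, Matrix.of_apply,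
      Polynomial.coe_evalRingHom, Polynomial.eval_add, Polynomial.eval_mul, Polynomial.eval_sub,
      Polynomial.eval_one, Polynomial.eval_X, Polynomial.eval_C]
    exact (lift_lineMap x m t (f.1 r) c).symm
  have hP0 : P ≠ 0 := by
    intro h0
    have h2 := hP 1
    rw [h0, Polynomial.eval_zero] at h2
    refine hm f.1 f.2 ?_
    rw [h2]
    congr 1
    ext r c
    simp
  refine (P.rootSet_finite ℝ).subset fun t ht => ?_
  rw [Polynomial.mem_rootSet]
  refine ⟨hP0, ?_⟩
  rw [Polynomial.coe_aeval_eq_eval, hP]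
  exact ht

theorem good_config (x : ι → EuclideanSpace ℝ (Fin d)) {s : ℕ} (hs : 3 ≤ s)
    (hn : s + (d + 1) = Fintype.card ι) (h2 : 2 * s ≤ Fintype.card ι + 1) : Good (dep x) s := by
  obtain ⟨m, hm⟩ := exists_generic ι d
  have hbad := finite_bad x m hm
  have hcont : Continuous fun t : ℝ => (fun i => (1 - t) • x i + t • m i :
      ι → EuclideanSpace ℝ (Fin d)) := by
    fun_prop
  have hcl := (isClosed_good (ι := ι) (d := d) s).preimage hcont
  have hdense : Dense {t : ℝ | ¬ Generic fun i => (1 - t) • x i + t • m i}ᶜ :=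
    hbad.countable.dense_compl ℝ
  have hsub : {t : ℝ | ¬ Generic fun i => (1 - t) • x i + t • m i}ᶜ ⊆
      (fun t : ℝ => (fun i => (1 - t) • x i + t • m i : ι → EuclideanSpace ℝ (Fin d))) ⁻¹'
        {x | Good (dep x) s} := by
    intro t ht
    have hgen : Generic fun i => (1 - t) • x i + t • m i := not_not.1 ht
    exact (hgen.sys hn).good hs h2
  have h0 := hdense.closure_eq ▸ (closure_minimal hsub hcl)
  have h1 := h0 (Set.mem_univ (0 : ℝ))
  simpa using h1

/-! ### from dependences to intersecting convex hulls -/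

theorem Wit.hull {x : ι → EuclideanSpace ℝ (Fin d)} {A : Finset ι} {k : ι}
    (h : Wit (dep x) A k) :
    (convexHull ℝ (x '' {i | i ∈ A ∧ i ≠ k}) ∩ convexHull ℝ (x '' {i | i ∉ A ∧ i ≠ k})).Nonempty := by
  obtain ⟨w, hw, hne, hk, hA, hA'⟩ := h
  have hsum : ∑ i, w i = 0 := by
    have := mem_dep.1 hw 0
    simpa [lift] using this
  have hsumx : ∑ i, w i • x i = 0 := by
    ext c
    have := mem_dep.1 hw c.succ
    simpa [lift] using this
  have hsplit : ∑ i ∈ A, w i + ∑ i ∈ Aᶜ, w i = 0 := by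
    rw [Finset.sum_add_sum_compl, hsum]
  have hsplitx : ∑ i ∈ A, w i • x i + ∑ i ∈ Aᶜ, w i • x i = 0 := by
    rw [Finset.sum_add_sum_compl, hsumx]
  have hnonneg : 0 ≤ ∑ i ∈ A, w i := Finset.sum_nonneg fun i hi => hA i hi
  have hpos : 0 < ∑ i ∈ A, w i := by
    refine lt_of_le_of_ne hnonneg fun h0 => hne ?_
    have h1 := (Finset.sum_eq_zero_iff_of_nonneg fun i hi => hA i hi).1 h0.symm
    have h2 : ∑ i ∈ Aᶜ, w i = 0 := by linarith
    have h3 := (Finset.sum_eq_zero_iff_of_nonpos fun i hi =>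
      hA' i (Finset.mem_compl.1 hi)).1 h2
    funext i
    by_cases hi : i ∈ A
    · exact h1 i hi
    · exact h3 i (Finset.mem_compl.2 hi)
  set W := ∑ i ∈ A, w i with hW
  have hW0 : W ≠ 0 := hpos.ne'
  refine ⟨∑ i ∈ A.erase k, (w i / W) • x i, ?_, ?_⟩
  · refine (convex_convexHull ℝ _).sum_mem (fun i hi => ?_) ?_ fun i hi => ?_
    · exact div_nonneg (hA i (Finset.mem_of_mem_erase hi)) hpos.le
    · rw [← Finset.sum_div, Finset.sum_erase _ hk, div_self hW0]
    · exact subset_convexHull ℝ _ ⟨i, ⟨Finset.mem_of_mem_erase hi, Finset.ne_of_mem_erase hi⟩, rfl⟩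
  · have heq : ∑ i ∈ A.erase k, (w i / W) • x i = ∑ i ∈ Aᶜ.erase k, (-w i / W) • x i := by
      rw [Finset.sum_erase _ (by rw [hk, zero_div, zero_smul]),
        Finset.sum_erase _ (by rw [hk, neg_zero, zero_div, zero_smul])]
      have h1 : ∀ i, (w i / W) • x i = W⁻¹ • (w i • x i) := fun i => by
        rw [smul_smul]
        congr 1
        field_simp
      have h2 : ∀ i, (-w i / W) • x i = -(W⁻¹ • (w i • x i)) := fun i => by
        rw [smul_smul, ← neg_smul]
        congr 1
        field_simp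
      simp only [h1, h2]
      rw [Finset.sum_neg_distrib, ← Finset.smul_sum, ← Finset.smul_sum, ← smul_neg]
      congr 1
      exact eq_neg_of_add_eq_zero_left hsplitx
    rw [heq]
    refine (convex_convexHull ℝ _).sum_mem (fun i hi => ?_) ?_ fun i hi => ?_
    · have := hA' i (Finset.mem_compl.1 (Finset.mem_of_mem_erase hi))
      exact div_nonneg (by linarith) hpos.le
    · rw [← Finset.sum_div, Finset.sum_neg_distrib, Finset.sum_erase _ hk]
      have : -∑ i ∈ Aᶜ, w i = W := by linarith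
      rw [this, div_self hW0]
    · exact subset_convexHull ℝ _
        ⟨i, ⟨Finset.mem_compl.1 (Finset.mem_of_mem_erase hi), Finset.ne_of_mem_erase hi⟩, rfl⟩

end Pool.Agent.MP_e211d6_h89
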