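import Pool.Agent.Lib_MP_e211d6_h89.Count
import Pool.Agent.Lib_MP_e211d6_h89.Geom

/-!
# Self-dual point configurations
-/

namespace Pool.Agent.MP_e211d6_h89

open Finset

variable {ι : Type*} [Fintype ι] [DecidableEq ι] {d : ℕ}

/-- the value vectors of affine functions -/
noncomputable def affMap (x : ι → EuclideanSpace ℝ (Fin d)) : (Fin (d + 1) → ℝ) →ₗ[ℝ] (ι → ℝ) where
  toFun := fun c i => ∑ k, c k * lift (x i) k
  map_add' := fun c c' => by
    funext i
    simp only [Pi.add_apply, add_mul, Finset.sum_add_distrib]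
  map_smul' := fun t c => by
    funext i
    simp only [Pi.smul_apply, smul_eq_mul, RingHom.id_apply, mul_assoc, Finset.mul_sum]

/-- the value vectors of affine functions -/
noncomputable def aff (x : ι → EuclideanSpace ℝ (Fin d)) : Submodule ℝ (ι → ℝ) :=
  LinearMap.range (affMap x)

omit [DecidableEq ι] [Fintype ι] in
theorem affMap_apply (x : ι → EuclideanSpace ℝ (Fin d)) (c : Fin (d + 1) → ℝ) (i : ι) :
    affMap x c i = ∑ k, c k * lift (x i) k := rfl

omit [DecidableEq ι] in
theorem aff_orth (x : ι → EuclideanSpace ℝ (Fin d)) {u v : ι → ℝ} (hu : u ∈ aff x)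
    (hv : v ∈ dep x) : ∑ i, u i * v i = 0 := by
  obtain ⟨c, rfl⟩ := hu
  have h := mem_dep.1 hv
  simp only [affMap_apply, Finset.sum_mul]
  rw [Finset.sum_comm]
  refine Finset.sum_eq_zero fun k _ => ?_
  have : ∑ i, c k * lift (x i) k * v i = c k * ∑ i, v i * lift (x i) k := by
    rw [Finset.mul_sum]
    exact Finset.sum_congr rfl fun i _ => by ring
  rw [this, h k, mul_zero]

theorem Generic.aff_zero {x : ι → EuclideanSpace ℝ (Fin d)} (hx : Generic x)
    {c : Fin (d + 1) → ℝ} {Z : Finset ι} (hZ : d + 1 ≤ Z.card) (h0 : ∀ i ∈ Z, affMap x c i = 0) :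
    c = 0 := by
  obtain ⟨T, hT, hTc⟩ := Finset.exists_subset_card_eq hZ
  let f : Fin (d + 1) → ι := fun r => (T.equivFinOfCardEq hTc).symm r
  have hf : Function.Injective f := fun r r' h =>
    (T.equivFinOfCardEq hTc).symm.injective (Subtype.ext h)
  have h3 : Matrix.mulVec (Matrix.of fun r c => lift (x (f r)) c) c = 0 := by
    funext r
    rw [Matrix.mulVec, dotProduct]
    simp only [Matrix.of_apply, Pi.zero_apply]
    have := h0 (f r) (hT ((T.equivFinOfCardEq hTc).symm r).2)
    rw [affMap_apply] at this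
    rw [← this]
    exact Finset.sum_congr rfl fun k _ => mul_comm _ _
  exact Matrix.eq_zero_of_mulVec_eq_zero (hx f hf) h3

theorem Generic.sys_aff {x : ι → EuclideanSpace ℝ (Fin d)} (hx : Generic x)
    (hn : d + 1 ≤ Fintype.card ι) : Sys (aff x) (d + 1) := by
  refine ⟨?_, fun J hJ => ?_⟩
  · rintro v ⟨c, rfl⟩ hne Z hZ
    by_contra hcon
    push Not at hcon
    apply hne
    rw [hx.aff_zero hcon hZ, map_zero]
  · let Λ : (Fin (d + 1) → ℝ) →ₗ[ℝ] (J → ℝ) :=
      (LinearMap.funLeft ℝ ℝ (fun j : J => (j : ι))).comp (affMap x)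
    have hker := LinearMap.ker_ne_bot_of_finrank_lt (f := Λ) (by
      rw [Module.finrank_fintype_fun_eq_card, Module.finrank_fintype_fun_eq_card, Fintype.card_coe,
        Fintype.card_fin]
      exact hJ)
    obtain ⟨c, hc, hcne⟩ := (Submodule.ne_bot_iff _).1 hker
    refine ⟨affMap x c, ⟨c, rfl⟩, fun h0 => hcne ?_, fun j hj => congrFun (hc : Λ c = 0) ⟨j, hj⟩⟩
    refine hx.aff_zero (Z := univ) (by rw [Finset.card_univ]; exact hn) fun i _ => ?_
    rw [h0]
    rfl

/-! ### convex hulls -/

/-- the convex hulls of the points with index in `A` and of those with index in `B` meet -/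
def HM (x : ι → EuclideanSpace ℝ (Fin d)) (A B : Finset ι) : Prop :=
  (convexHull ℝ (x '' A) ∩ convexHull ℝ (x '' B)).Nonempty

omit [DecidableEq ι] [Fintype ι] in
theorem exists_sep {x : ι → EuclideanSpace ℝ (Fin d)} {A B : Finset ι} (h : ¬ HM x A B) :
    ∃ u ∈ aff x, (∀ i ∈ A, 0 < u i) ∧ ∀ i ∈ B, u i < 0 := by
  have hA : (x '' (A : Set ι)).Finite := A.finite_toSet.image x
  have hB : (x '' (B : Set ι)).Finite := B.finite_toSet.image x
  have hdisj : Disjoint (convexHull ℝ (x '' B)) (convexHull ℝ (x '' A)) := by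
    rw [Set.disjoint_iff_inter_eq_empty, Set.inter_comm, ← Set.not_nonempty_iff_eq_empty]
    exact h
  obtain ⟨f, a, b, hf1, hab, hf2⟩ := geometric_hahn_banach_compact_closed (convex_convexHull ℝ _)
    (hB.isCompact_convexHull (𝕜 := ℝ)) (convex_convexHull ℝ _)
    (hA.isCompact_convexHull (𝕜 := ℝ)).isClosed hdisj
  have hrep : ∀ p : EuclideanSpace ℝ (Fin d), f p = ∑ k, f (EuclideanSpace.single k 1) * p k := by
    intro p
    conv_lhs => rw [← (EuclideanSpace.basisFun (Fin d) ℝ).sum_repr p]
    rw [map_sum]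
    refine Finset.sum_congr rfl fun k _ => ?_
    rw [map_smul, EuclideanSpace.basisFun_repr, EuclideanSpace.basisFun_apply, smul_eq_mul, mul_comm]
  have hval : ∀ i, affMap x (Fin.cons (-((a + b) / 2)) fun k => f (EuclideanSpace.single k 1)) i =
      f (x i) - (a + b) / 2 := by
    intro i
    rw [affMap_apply, Fin.sum_univ_succ, hrep (x i)]
    simp [lift]
    ring
  refine ⟨_, ⟨Fin.cons (-((a + b) / 2)) fun k => f (EuclideanSpace.single k 1), rfl⟩,
    fun i hi => ?_, fun i hi => ?_⟩
  · rw [hval]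
    have := hf2 (x i) (subset_convexHull ℝ _ ⟨i, hi, rfl⟩)
    linarith
  · rw [hval]
    have := hf1 (x i) (subset_convexHull ℝ _ ⟨i, hi, rfl⟩)
    linarith

/-- weights of a point of the convex hull -/
theorem exists_weights {x : ι → EuclideanSpace ℝ (Fin d)} (hinj : Function.Injective x)
    {A : Finset ι} {p : EuclideanSpace ℝ (Fin d)} (hp : p ∈ convexHull ℝ (x '' A)) :
    ∃ w : ι → ℝ, (∀ i ∈ A, 0 ≤ w i) ∧ ∑ i ∈ A, w i = 1 ∧ ∑ i ∈ A, w i • x i = p := by
  classical
  rw [← Finset.coe_image, Finset.mem_convexHull'] at hp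
  obtain ⟨w, h1, h2, h3⟩ := hp
  refine ⟨fun i => w (x i), fun i hi => h1 _ (Finset.mem_image_of_mem _ hi), ?_, ?_⟩
  · rw [← h2, Finset.sum_image fun a _ b _ h => hinj h]
  · rw [← h3, Finset.sum_image fun a _ b _ h => hinj h]

theorem HM.exists_dep {x : ι → EuclideanSpace ℝ (Fin d)} (hinj : Function.Injective x)
    {A : Finset ι} (h : HM x A Aᶜ) :
    ∃ v ∈ dep x, v ≠ 0 ∧ (∀ i ∈ A, 0 ≤ v i) ∧ ∀ i ∉ A, v i ≤ 0 := by
  obtain ⟨p, hpA, hpB⟩ := h
  obtain ⟨w, hw0, hw1, hwp⟩ := exists_weights hinj hpA
  obtain ⟨w', hw0', hw1', hwp'⟩ := exists_weights hinj hpB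
  refine ⟨fun i => if i ∈ A then w i else -w' i, ?_, fun h0 => ?_, fun i hi => ?_, fun i hi => ?_⟩
  · have key : ∀ g : ι → ℝ, ∑ i, (if i ∈ A then w i else -w' i) * g i =
        ∑ i ∈ A, w i * g i - ∑ i ∈ Aᶜ, w' i * g i := by
      intro g
      rw [← Finset.sum_add_sum_compl A, sub_eq_add_neg, ← Finset.sum_neg_distrib]
      congr 1
      · exact Finset.sum_congr rfl fun i hi => by rw [if_pos hi]
      · exact Finset.sum_congr rfl fun i hi => by rw [if_neg (Finset.mem_compl.1 hi), neg_mul]
    refine mem_dep.2 fun c => ?_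
    rw [key]
    refine Fin.cases ?_ (fun k => ?_) c
    · simp only [lift, Fin.cons_zero, mul_one]
      rw [hw1, hw1', sub_self]
    · simp only [lift, Fin.cons_succ]
      have e1 := congrArg (fun q : EuclideanSpace ℝ (Fin d) => q k) hwp
      have e2 := congrArg (fun q : EuclideanSpace ℝ (Fin d) => q k) hwp'
      simp only [smul_eq_mul, WithLp.ofLp_sum,
        Finset.sum_apply, WithLp.ofLp_smul, Pi.smul_apply] at e1 e2
      rw [e1, e2, sub_self]
  · have : ∑ i ∈ A, w i = 0 := Finset.sum_eq_zero fun i hi => by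
      have := congrFun h0 i
      simpa [hi] using this
    rw [hw1] at this
    exact one_ne_zero this
  · simp only [if_pos hi]
    exact hw0 i hi
  · simp only [if_neg hi]
    have := hw0' i (Finset.mem_compl.2 hi)
    linarith

/-- a partition is separable exactly when its hulls do not meet -/
theorem tope_iff {x : ι → EuclideanSpace ℝ (Fin d)} (hinj : Function.Injective x) (A : Finset ι) :
    Tope (aff x) A ↔ ¬ HM x A Aᶜ := by
  constructor
  · rintro ⟨u, hu, h1, h2⟩ hm
    obtain ⟨v, hv, hvne, hv1, hv2⟩ := hm.exists_dep hinj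
    have h0 := aff_orth x hu hv
    have hnn : ∀ i ∈ univ, 0 ≤ u i * v i := by
      intro i _
      by_cases hi : i ∈ A
      · exact mul_nonneg (h1 i hi).le (hv1 i hi)
      · exact mul_nonneg_of_nonpos_of_nonpos (h2 i hi).le (hv2 i hi)
    have h3 := (Finset.sum_eq_zero_iff_of_nonneg hnn).1 h0
    apply hvne
    funext i
    rcases mul_eq_zero.1 (h3 i (Finset.mem_univ _)) with h4 | h4
    · exfalso
      by_cases hi : i ∈ A
      · exact (h1 i hi).ne' h4
      · exact (h2 i hi).ne h4
    · exact h4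
  · intro hm
    obtain ⟨u, hu, h1, h2⟩ := exists_sep hm
    exact ⟨u, hu, h1, fun k hk => h2 k (Finset.mem_compl.2 hk)⟩

theorem Tope.compl {L : Submodule ℝ (ι → ℝ)} {A : Finset ι} (h : Tope L A) : Tope L Aᶜ := by
  obtain ⟨u, hu, h1, h2⟩ := h
  refine ⟨-u, L.neg_mem hu, fun k hk => ?_, fun k hk => ?_⟩
  · have := h2 k (Finset.mem_compl.1 hk)
    simp only [Pi.neg_apply]
    linarith
  · have := h1 k (by rwa [Finset.mem_compl, not_not] at hk)
    simp only [Pi.neg_apply]
    linarith

/-- the number of separable partitions forces general position (equality case of Cover's count) -/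
theorem generic_of_dual {x : ι → EuclideanSpace ℝ (Fin d)} (hcard : Fintype.card ι = 2 * d + 2)
    {G : Finset ι} (hG : ∀ A, Tope (aff x) A ↔ ¬ Tope (aff x) (symmDiff A G)) : Generic x := by
  classical
  by_contra hgen
  simp only [Generic, not_forall, not_not] at hgen
  obtain ⟨f, hf, hdet⟩ := hgen
  -- a dependence supported on the image of `f`
  obtain ⟨c, hcne, hc⟩ := Matrix.exists_vecMul_eq_zero_iff.2 hdet
  set I := univ.image f with hI
  have hIc : I.card = d + 1 := by
    rw [hI, Finset.card_image_of_injective _ hf, Finset.card_univ, Fintype.card_fin]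
  obtain ⟨w, hw, hwne, hwI⟩ : ∃ w ∈ dep x, w ≠ 0 ∧ ∀ i ∉ I, w i = 0 := by
    refine ⟨fun i => ∑ r, if f r = i then c r else 0, mem_dep.2 fun k => ?_, fun h0 => hcne ?_,
      fun i hi => ?_⟩
    · have h1 := congrFun hc k
      rw [Matrix.vecMul, dotProduct] at h1
      simp only [Matrix.of_apply, Pi.zero_apply] at h1
      refine Eq.trans ?_ h1
      simp only [Finset.sum_mul]
      rw [Finset.sum_comm]
      refine Finset.sum_congr rfl fun r _ => ?_
      rw [Finset.sum_eq_single_of_mem (f r) (Finset.mem_univ _) fun i _ hne => by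
        rw [if_neg (Ne.symm hne), zero_mul]]
      rw [if_pos rfl]
    · funext r
      have h1 := congrFun h0 (f r)
      simp only [Pi.zero_apply] at h1 ⊢
      rw [Finset.sum_eq_single_of_mem r (Finset.mem_univ _) fun r' _ hne => by
        rw [if_neg fun hh => hne (hf hh)], if_pos rfl] at h1
      exact h1
    · refine Finset.sum_eq_zero fun r _ => ?_
      rw [if_neg]
      rintro rfl
      exact hi (Finset.mem_image_of_mem _ (Finset.mem_univ _))
  obtain ⟨e, he⟩ : ∃ e, w e ≠ 0 := by
    by_contra hcon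
    push Not at hcon
    exact hwne (funext hcon)
  have heI : e ∈ I := by
    by_contra hh
    exact he (hwI e hh)
  -- the families
  set T := (univ : Finset (Finset ι)).filter fun A => Tope (aff x) A with hT
  set T1 := T.filter fun B => e ∈ B with hT1
  set T2 := T.filter fun B => e ∉ B with hT2
  have hsum : T1.card + T2.card = T.card := Finset.card_filter_add_card_filter_not _
  have h12 : T1.card ≤ T2.card := by
    refine Finset.card_le_card_of_injOn (fun B => Bᶜ) (fun B hB => ?_) ?_
    · obtain ⟨hB1, heB⟩ := Finset.mem_filter.1 (Finset.mem_coe.1 hB)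
      refine Finset.mem_coe.2 (Finset.mem_filter.2 ⟨Finset.mem_filter.2 ⟨Finset.mem_univ _,
        (Finset.mem_filter.1 hB1).2.compl⟩, fun hh => Finset.mem_compl.1 hh heB⟩)
    · intro B _ B' _ hBB
      exact compl_injective hBB
  -- half of all subsets are separable
  have hhalf : 2 * T.card = 2 ^ (2 * d + 2) := by
    have h1 : (univ.filter fun A => ¬ Tope (aff x) A).card = T.card := by
      refine Finset.card_bij (fun A _ => symmDiff A G) (fun A hA => ?_) (fun A _ A' _ h => ?_)
        (fun A hA => ?_)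
      · refine Finset.mem_filter.2 ⟨Finset.mem_univ _, ?_⟩
        by_contra hh
        exact (Finset.mem_filter.1 hA).2 ((hG A).2 hh)
      · exact symmDiff_left_injective G h
      · refine ⟨symmDiff A G, Finset.mem_filter.2 ⟨Finset.mem_univ _, ?_⟩, ?_⟩
        · exact (hG A).1 (Finset.mem_filter.1 hA).2
        · rw [symmDiff_assoc, symmDiff_self, symmDiff_bot]
    have h2 : T.card + (univ.filter fun A => ¬ Tope (aff x) A).card = 2 ^ (2 * d + 2) := by
      rw [hT, Finset.card_filter_add_card_filter_not, Finset.card_univ, Fintype.card_finset, hcard]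
    omega
  -- shattered sets
  have hdepno : ∀ Z, T2.Shatters Z → ∀ v ∈ dep x, (∀ i, i ∉ insert e Z → v i = 0) → v = 0 := by
    intro Z hZ v hv hvZ
    by_contra hvne
    -- normalise the sign at `e`
    obtain ⟨v, hv, hvZ, hvne, hve⟩ : ∃ v ∈ dep x, (∀ i, i ∉ insert e Z → v i = 0) ∧ v ≠ 0 ∧
        v e ≤ 0 := by
      rcases le_or_gt (v e) 0 with hh | hh
      · exact ⟨v, hv, hvZ, hvne, hh⟩
      · refine ⟨-v, (dep x).neg_mem hv, fun i hi => by simp [hvZ i hi], neg_ne_zero.2 hvne, ?_⟩
        simp only [Pi.neg_apply]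
        linarith
    obtain ⟨B, hB, hBt⟩ := hZ (Finset.filter_subset (fun k => 0 < v k) Z)
    obtain ⟨hB1, heB⟩ := Finset.mem_filter.1 hB
    obtain ⟨u, hu, hu1, hu2⟩ := (Finset.mem_filter.1 hB1).2
    have hnn : ∀ k, 0 ≤ u k * v k := by
      intro k
      by_cases hke : k = e
      · rw [hke]
        exact mul_nonneg_of_nonpos_of_nonpos (hu2 e heB).le hve
      · by_cases hkZ : k ∈ Z
        · by_cases hkB : k ∈ B
          · have h1 : k ∈ Z.filter fun k => 0 < v k := by
              rw [← hBt]
              exact Finset.mem_inter.2 ⟨hkZ, hkB⟩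
            exact (mul_pos (hu1 k hkB) (Finset.mem_filter.1 h1).2).le
          · have h1 : ¬ 0 < v k := by
              intro hh
              have : k ∈ Z ∩ B := by
                rw [hBt]
                exact Finset.mem_filter.2 ⟨hkZ, hh⟩
              exact hkB (Finset.mem_inter.1 this).2
            exact mul_nonneg_of_nonpos_of_nonpos (hu2 k hkB).le (not_lt.1 h1)
        · rw [hvZ k (by rw [Finset.mem_insert]; tauto), mul_zero]
    have h0 := aff_orth x hu hv
    have h3 := (Finset.sum_eq_zero_iff_of_nonneg fun k _ => hnn k).1 h0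
    apply hvne
    funext k
    rcases mul_eq_zero.1 (h3 k (Finset.mem_univ _)) with h4 | h4
    · exfalso
      by_cases hk : k ∈ B
      · exact (hu1 k hk).ne' h4
      · exact (hu2 k hk).ne h4
    · exact h4
  have hsh : ∀ Z, T2.Shatters Z → Z ⊆ univ.erase e ∧ Z.card ≤ d ∧ Z ≠ I.erase e := by
    intro Z hZ
    refine ⟨?_, ?_, ?_⟩
    · obtain ⟨B, hB, hZB⟩ := hZ (Finset.Subset.refl Z)
      intro k hk
      have h1 : k ∈ Z ∩ B := by rw [hZB]; exact hk
      refine Finset.mem_erase.2 ⟨?_, Finset.mem_univ _⟩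
      rintro rfl
      exact (Finset.mem_filter.1 hB).2 (Finset.mem_inter.1 h1).2
    · by_contra hcon
      push Not at hcon
      -- a dependence on `insert e Z`
      have heZ : e ∉ Z := by
        obtain ⟨B, hB, hZB⟩ := hZ (Finset.Subset.refl Z)
        intro hk
        have h1 : e ∈ Z ∩ B := by rw [hZB]; exact hk
        exact (Finset.mem_filter.1 hB).2 (Finset.mem_inter.1 h1).2
      have hYc : (insert e Z).card = Z.card + 1 := Finset.card_insert_of_notMem heZ
      have hdep' := hdepno Z hZ
      generalize insert e Z = Y at hYc hdep'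
      let Λ : (Y → ℝ) →ₗ[ℝ] (Fin (d + 1) → ℝ) :=
        { toFun := fun c k => ∑ i, c i * lift (x i) k
          map_add' := fun c c' => by
            funext k
            simp only [Pi.add_apply, add_mul, Finset.sum_add_distrib]
          map_smul' := fun t c => by
            funext k
            simp only [Pi.smul_apply, smul_eq_mul, RingHom.id_apply, mul_assoc, Finset.mul_sum] }
      have hker := LinearMap.ker_ne_bot_of_finrank_lt (f := Λ) (by
        rw [Module.finrank_fintype_fun_eq_card, Module.finrank_fintype_fun_eq_card,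
          Fintype.card_coe, Fintype.card_fin, hYc]
        omega)
      obtain ⟨c, hc, hcne⟩ := (Submodule.ne_bot_iff _).1 hker
      have h1 : (fun i => if h : i ∈ Y then c ⟨i, h⟩ else 0) = (0 : ι → ℝ) := by
        refine hdep' _ (mem_dep.2 fun k => ?_) (fun i hi => by rw [dif_neg hi])
        have h2 : (∑ i : Y, c i * lift (x i) k) = 0 := congrFun (hc : Λ c = 0) k
        refine Eq.trans ?_ h2
        rw [← Finset.sum_subset (Finset.subset_univ Y)
          (f := fun i => (if h : i ∈ Y then c ⟨i, h⟩ else 0) * lift (x i) k)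
          fun i _ hi => by rw [dif_neg hi, zero_mul]]
        rw [← Finset.sum_coe_sort]
        refine Finset.sum_congr rfl fun i _ => ?_
        rw [dif_pos i.2]
      apply hcne
      funext i
      have := congrFun h1 i
      simpa using this
    · rintro rfl
      refine hwne (hdepno _ hZ w hw fun i hi => hwI i fun hh => hi ?_)
      rw [Finset.insert_erase heI]
      exact hh
  have hT2le : T2.card < 4 ^ d := by
    refine (Finset.card_le_card_shatterer T2).trans_lt ?_
    have hce : ((univ : Finset ι).erase e).card = 2 * d + 1 := by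
      rw [Finset.card_erase_of_mem (Finset.mem_univ _), Finset.card_univ, hcard]
      rfl
    have h1 : T2.shatterer ⊂ (Finset.range (d + 1)).biUnion fun r =>
        Finset.powersetCard r ((univ : Finset ι).erase e) := by
      rw [Finset.ssubset_iff_subset_ne]
      refine ⟨fun Z hZ => ?_, fun heq => ?_⟩
      · obtain ⟨h1, h2, -⟩ := hsh Z (Finset.mem_shatterer.1 hZ)
        exact Finset.mem_biUnion.2 ⟨Z.card, Finset.mem_range.2 (by omega),
          Finset.mem_powersetCard.2 ⟨h1, rfl⟩⟩
      · have h2 : I.erase e ∈ T2.shatterer := by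
          rw [heq]
          refine Finset.mem_biUnion.2 ⟨d, Finset.mem_range.2 (by omega),
            Finset.mem_powersetCard.2 ⟨Finset.erase_subset_erase _ (Finset.subset_univ _), ?_⟩⟩
          rw [Finset.card_erase_of_mem heI, hIc]
          rfl
        exact (hsh _ (Finset.mem_shatterer.1 h2)).2.2 rfl
    refine (Finset.card_lt_card h1).trans_le ?_
    refine Finset.card_biUnion_le.trans ?_
    rw [← Nat.sum_range_choose_halfway d]
    refine Finset.sum_le_sum fun r _ => ?_
    rw [Finset.card_powersetCard, hce]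
  have h4 : (4 : ℕ) ^ d = 2 ^ (2 * d) := by
    rw [pow_mul]
    norm_num
  have h5 : (2 : ℕ) ^ (2 * d + 2) = 4 * 2 ^ (2 * d) := by
    rw [pow_add]
    ring
  omega

/-- self-dual configurations of `2 d + 2` points have a partition of tolerance one -/
theorem exists_tolerant {x : ι → EuclideanSpace ℝ (Fin d)} (hinj : Function.Injective x)
    (hd : 2 ≤ d) (hcard : Fintype.card ι = 2 * d + 2) {G : Finset ι}
    (hG : ∀ A, HM x A Aᶜ ↔ ¬ HM x (symmDiff A G) (symmDiff A G)ᶜ) :
    ∃ A : Finset ι, ∀ k, HM x (A.erase k) (Aᶜ.erase k) := by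
  have hG' : ∀ A, Tope (aff x) A ↔ ¬ Tope (aff x) (symmDiff A G) := by
    intro A
    rw [tope_iff hinj, tope_iff hinj, hG A]
  have hgen := generic_of_dual hcard hG'
  by_contra hcon
  push Not at hcon
  have hL : Sys (aff x) (d + 1) := hgen.sys_aff (by omega)
  have hV : Sys (dep x) (d + 1) := hgen.sys (by omega)
  have hSD : SD (aff x) (d + 1) G := by
    refine ⟨hL, by omega, by omega, hG', fun A => ?_⟩
    obtain ⟨k, hk⟩ := hcon A
    obtain ⟨u, hu, h1, h2⟩ := exists_sep hk
    exact ⟨k, u, hu, fun i hik => ⟨fun hi => h1 i (Finset.mem_erase.2 ⟨hik, hi⟩),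
      fun hi => h2 i (Finset.mem_erase.2 ⟨hik, Finset.mem_compl.2 hi⟩)⟩⟩
  exact hSD.false hV fun u hu v hv => aff_orth x hu hv

end Pool.Agent.MP_e211d6_h89
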