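import Pool.Agent.Lib_MP_e211d6_h89.Step

/-!
# Uniform spaces have a cell with at least `2 s - 1` facets
-/

namespace Pool.Agent.MP_e211d6_h89

open Finset

variable {E : Type*} [Fintype E] [DecidableEq E]
variable {V : Submodule ℝ (E → ℝ)} {s : ℕ} {S : Finset E} {u : E → E → ℝ}

theorem Pos.alpha (h : Pos V s S u) (hs : 1 ≤ s) {v : E → ℝ} (hv : Vert V s Sᶜ v) {i i' : E}
    (hi : i ∈ S) (hi' : i' ∈ S) (hii : i ≠ i') (hvi : 0 < v i) (hvi' : 0 < v i') : Good V s := by
  set A := (S.filter fun k => 0 < v k) ∪ Sᶜ with hA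
  have hmemA : ∀ k ∈ S, 0 < v k → k ∈ A := fun k hk hk' =>
    Finset.mem_union_left _ (Finset.mem_filter.2 ⟨hk, hk'⟩)
  have key : ∀ e ∈ S, ∀ i ∈ S, i ≠ e → 0 < v i → Wit V A e := by
    intro e he i hi hie hvi
    refine ⟨u i, h.mem i hi, fun h0 => ?_, h.zero i hi e he hie.symm, fun k hk => ?_,
      fun k hk => ?_⟩
    · have := h.one i hi
      rw [h0] at this
      simp at this
    · by_cases hkS : k ∈ S
      · by_cases hki : k = i
        · rw [hki, h.one i hi]; exact zero_le_one
        · exact (h.zero i hi k hkS hki).ge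
      · exact (h.pos i hi k hkS).le
    · have hkS : k ∈ S := by
        by_contra hh
        exact hk (Finset.mem_union_right _ (Finset.mem_compl.2 hh))
      have hki : k ≠ i := by
        rintro rfl
        exact hk (hmemA k hi hvi)
      exact (h.zero i hi k hkS hki).le
  refine ⟨A, (Sᶜ.filter fun k => v k = 0) ∪ S, ?_, ?_⟩
  · have h1 : Disjoint (Sᶜ.filter fun k => v k = 0) S := by
      rw [Finset.disjoint_left]
      intro k hk
      exact Finset.mem_compl.1 (Finset.mem_filter.1 hk).1
    rw [Finset.card_union_of_disjoint h1, h.card]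
    have := hv.card
    omega
  · intro e he
    rcases Finset.mem_union.1 he with he | he
    · refine ⟨v, hv.mem, hv.ne, (Finset.mem_filter.1 he).2, fun k hk => ?_, fun k hk => ?_⟩
      · rcases Finset.mem_union.1 hk with hk | hk
        · exact (Finset.mem_filter.1 hk).2.le
        · exact hv.nonneg k hk
      · have hkS : k ∈ S := by
          by_contra hh
          exact hk (Finset.mem_union_right _ (Finset.mem_compl.2 hh))
        by_contra hcon
        exact hk (hmemA k hkS (not_le.1 hcon))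
    · by_cases hei : e = i
      · refine key e he i' hi' ?_ hvi'
        rw [hei]; exact hii.symm
      · exact key e he i hi (Ne.symm hei) hvi

theorem Pos.beta (h : Pos V s S u) (hs : 1 ≤ s) {v w : E → ℝ} (hv : Vert V s Sᶜ v)
    (hw : Vert V s Sᶜ w) {l : E} (hl : l ∈ S) (hvl : 0 < v l) (hwl : 0 < w l)
    (hvm : ∀ m ∈ S, m ≠ l → v m ≤ 0) (hwm : ∀ m ∈ S, m ≠ l → w m ≤ 0)
    {q : E} (hq : q ∈ Sᶜ) (hvq : v q = 0) (hwq : w q ≠ 0) : Good V s := by
  set A := insert l Sᶜ with hA
  have key : ∀ v : E → ℝ, Vert V s Sᶜ v → 0 < v l → (∀ m ∈ S, m ≠ l → v m ≤ 0) →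
      ∀ e ∈ (Sᶜ.filter fun k => v k = 0), Wit V A e := by
    intro v hv hvl hvm e he
    refine ⟨v, hv.mem, hv.ne, (Finset.mem_filter.1 he).2, fun k hk => ?_, fun k hk => ?_⟩
    · rcases Finset.mem_insert.1 hk with rfl | hk
      · exact hvl.le
      · exact hv.nonneg k hk
    · rw [hA, Finset.mem_insert, not_or, Finset.mem_compl, not_not] at hk
      exact hvm k hk.2 hk.1
  refine ⟨A, ((Sᶜ.filter fun k => v k = 0) ∪ (Sᶜ.filter fun k => w k = 0)) ∪ S.erase l, ?_, ?_⟩
  · have h1 : Disjoint ((Sᶜ.filter fun k => v k = 0) ∪ (Sᶜ.filter fun k => w k = 0))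
        (S.erase l) := by
      rw [Finset.disjoint_left]
      intro k hk hk'
      have hkS := Finset.mem_of_mem_erase hk'
      rcases Finset.mem_union.1 hk with hk | hk
      · exact Finset.mem_compl.1 (Finset.mem_filter.1 hk).1 hkS
      · exact Finset.mem_compl.1 (Finset.mem_filter.1 hk).1 hkS
    have h2 : insert q (Sᶜ.filter fun k => w k = 0) ⊆
        (Sᶜ.filter fun k => v k = 0) ∪ (Sᶜ.filter fun k => w k = 0) := by
      intro k hk
      rcases Finset.mem_insert.1 hk with rfl | hk
      · exact Finset.mem_union_left _ (Finset.mem_filter.2 ⟨hq, hvq⟩)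
      · exact Finset.mem_union_right _ hk
    have h3 := Finset.card_le_card h2
    have h5 : q ∉ Sᶜ.filter fun k => w k = 0 := fun hh => hwq (Finset.mem_filter.1 hh).2
    rw [Finset.card_insert_of_notMem h5] at h3
    rw [Finset.card_union_of_disjoint h1, Finset.card_erase_of_mem hl, h.card]
    have := hw.card
    omega
  · intro e he
    rcases Finset.mem_union.1 he with he | he
    · rcases Finset.mem_union.1 he with he | he
      · exact key v hv hvl hvm e he
      · exact key w hw hwl hwm e he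
    · obtain ⟨hel, heS⟩ := Finset.mem_erase.1 he
      refine ⟨u l, h.mem l hl, fun h0 => ?_, h.zero l hl e heS hel, fun k hk => ?_, fun k hk => ?_⟩
      · have := h.one l hl
        rw [h0] at this
        simp at this
      · rcases Finset.mem_insert.1 hk with rfl | hk
        · rw [h.one k hl]; exact zero_le_one
        · exact (h.pos l hl k (Finset.mem_compl.1 hk)).le
      · rw [hA, Finset.mem_insert, not_or, Finset.mem_compl, not_not] at hk
        exact (h.zero l hl k hk.2 hk.1).le

theorem Pos.good (h : Pos V s S u) (hs : 3 ≤ s) (hE : 2 * s ≤ Fintype.card E + 1) : Good V s := by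
  by_contra hng
  have hTc : s ≤ Sᶜ.card + 1 := by
    rw [Finset.card_compl, h.card]
    omega
  have hTne : (Sᶜ : Finset E).Nonempty := by
    rw [← Finset.card_pos]
    omega
  obtain ⟨k0, hk0⟩ := hTne
  have hSne : S.Nonempty := by
    rw [← Finset.card_pos, h.card]
    omega
  obtain ⟨m0, hm0⟩ := hSne
  obtain ⟨z, hz⟩ := exists_vert h.sys Sᶜ hTc (u m0) (h.mem m0 hm0) (fun h0 => by
    have := h.one m0 hm0
    rw [h0] at this
    simp at this) (fun k hk => (h.pos m0 hm0 k (Finset.mem_compl.1 hk)).le)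
  obtain ⟨l, hl, hzl⟩ := h.exists_pos hz.mem hz.ne (Finset.mem_compl.1 hk0) (hz.nonneg k0 hk0)
  have hneS : ∀ v, Vert V s Sᶜ v → ∀ m ∈ S, v m ≠ 0 := fun v hv m hm =>
    hv.ne_zero h.sys fun hh => Finset.mem_compl.1 (Finset.mem_filter.1 hh).1 hm
  have hone : ∀ v, Vert V s Sᶜ v → ∀ i ∈ S, 0 < v i → ∀ m ∈ S, m ≠ i → v m < 0 := by
    intro v hv i hi hvi m hm hmi
    refine lt_of_le_of_ne ?_ (hneS v hv m hm)
    by_contra hcon
    exact hng (h.alpha (by omega) hv hi hm hmi.symm hvi (not_le.1 hcon))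
  set J := Sᶜ.filter fun k => z k = 0 with hJ
  have hJS : ∀ j ∈ J, j ∉ S := fun j hj => Finset.mem_compl.1 (Finset.mem_filter.1 hj).1
  have hf : Fix V s S u z l J := by
    refine ⟨h, hs, hl, hz.mem, hzl, hone z hz l hl hzl, hJS, hz.card,
      fun j hj => (Finset.mem_filter.1 hj).2, fun k hk hkJ => ?_⟩
    exact lt_of_le_of_ne (hz.nonneg k (Finset.mem_compl.2 hk)) (Ne.symm (hz.ne_zero h.sys hkJ))
  have hJR : J ∪ (Sᶜ \ J) = Sᶜ := Finset.union_sdiff_of_subset (Finset.filter_subset _ _)
  have hst : Stage V s S u z l J (Sᶜ \ J) l := by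
    refine ⟨hf, fun k hk => ?_, ?_, fun hh => hJS l hh hl, fun hh => ?_, fun hh => ?_, ?_⟩
    · obtain ⟨h1, h2⟩ := Finset.mem_sdiff.1 hk
      exact ⟨Finset.mem_compl.1 h1, h2⟩
    · rintro v hv ⟨k, hk, hvk⟩
      rw [hJR] at hv
      obtain ⟨hkT, hkJ⟩ := Finset.mem_sdiff.1 hk
      refine ⟨?_, fun k' h1 h2 h3 => absurd (Finset.mem_sdiff.2 ⟨Finset.mem_compl.2 h1, h2⟩) h3⟩
      refine lt_of_le_of_ne ?_ (hneS v hv l hl)
      by_contra hcon
      push Not at hcon
      refine hng (h.beta (by omega) hv hz hl hcon hzl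
        (fun m hm hml => (hone v hv l hl hcon m hm hml).le)
        (fun m hm hml => (hone z hz l hl hzl m hm hml).le) hkT hvk ?_)
      exact hz.ne_zero h.sys hkJ
    · exact Finset.mem_compl.1 (Finset.mem_sdiff.1 hh).1 hl
    · exact (Finset.mem_erase.1 hh).1 rfl
    · intro i hi hil
      refine ⟨u i, h.mem i hi, by rw [h.one i hi]; exact one_pos,
        fun m hm hmi _ => h.zero i hi m hm hmi, (h.zero i hi l hl hil.symm).le,
        h.zero i hi l hl hil.symm,
        fun k h1 h2 h3 => absurd (Finset.mem_sdiff.2 ⟨Finset.mem_compl.2 h1, h2⟩) h3, ?_⟩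
      intro k hk
      rw [hJR] at hk
      exact (h.pos i hi k (Finset.mem_compl.1 hk)).le
  exact hng hst.good

/-- multiplication of the coordinates by `ρ` -/
noncomputable def diag (ρ : E → ℝ) : (E → ℝ) →ₗ[ℝ] (E → ℝ) :=
  LinearMap.pi fun k => ρ k • LinearMap.proj k

@[simp] theorem diag_apply (ρ v : E → ℝ) (k : E) : diag ρ v k = ρ k * v k := by
  simp [diag]

theorem good_of_diag {ρ : E → ℝ} (hρ : ∀ k, ρ k = 1 ∨ ρ k = -1) (h : Good (V.comap (diag ρ)) s) :
    Good V s := by
  obtain ⟨A, F, hF, hW⟩ := h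
  refine ⟨univ.filter fun k => (k ∈ A ↔ ρ k = 1), F, hF, fun e he => ?_⟩
  obtain ⟨v, hv, hne, hve, hvA, hvA'⟩ := hW e he
  refine ⟨diag ρ v, hv, fun h0 => hne ?_, by simp [hve], fun k hk => ?_, fun k hk => ?_⟩
  · funext k
    have := congrFun h0 k
    rw [diag_apply] at this
    rcases hρ k with h1 | h1 <;> · rw [h1] at this; simpa using this
  · have hk' := (Finset.mem_filter.1 hk).2
    rw [diag_apply]
    rcases hρ k with h1 | h1
    · rw [h1, one_mul]
      exact hvA k (hk'.2 h1)
    · have h2 : k ∉ A := fun hh => by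
        have := hk'.1 hh
        rw [h1] at this
        norm_num at this
      have := hvA' k h2
      rw [h1]
      linarith
  · have hk' : ¬ (k ∈ A ↔ ρ k = 1) := fun hh => hk (Finset.mem_filter.2 ⟨Finset.mem_univ _, hh⟩)
    rw [diag_apply]
    rcases hρ k with h1 | h1
    · rw [h1, one_mul]
      refine hvA' k fun hh => hk' ⟨fun _ => h1, fun _ => hh⟩
    · have h2 : k ∈ A := by
        by_contra hh
        refine hk' ⟨fun hh' => absurd hh' hh, fun hh' => ?_⟩
        rw [h1] at hh'
        norm_num at hh'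
      have := hvA k h2
      rw [h1]
      linarith

theorem Sys.exists_dual (h : Sys V s) {S : Finset E} (hS : S.card = s) {m : E} (hm : m ∈ S) :
    ∃ v ∈ V, v m = 1 ∧ ∀ m' ∈ S, m' ≠ m → v m' = 0 := by
  have hpos : 0 < S.card := Finset.card_pos.2 ⟨m, hm⟩
  obtain ⟨v, hv, hne, h0⟩ := h.dim (S.erase m) (by rw [Finset.card_erase_of_mem hm]; omega)
  have hvm : v m ≠ 0 := by
    intro hh
    refine hne (h.eq_zero hv S hS.ge fun k hk => ?_)
    by_cases hkm : k = m
    · rw [hkm]; exact hh
    · exact h0 k (Finset.mem_erase.2 ⟨hkm, hk⟩)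
  refine ⟨(v m)⁻¹ • v, V.smul_mem _ hv, by simp [hvm], fun m' hm' hne' => ?_⟩
  simp [h0 m' (Finset.mem_erase.2 ⟨hne', hm'⟩)]

theorem Sys.diag (h : Sys V s) {ρ : E → ℝ} (hρ : ∀ k, ρ k = 1 ∨ ρ k = -1) :
    Sys (V.comap (diag ρ)) s := by
  have hρ2 : ∀ k, ρ k * ρ k = 1 := fun k => by rcases hρ k with h1 | h1 <;> rw [h1] <;> norm_num
  have hρ0 : ∀ k, ρ k ≠ 0 := fun k h0 => by
    have := hρ2 k
    rw [h0] at this
    norm_num at this
  refine ⟨fun v hv hne Z hZ => ?_, fun J hJ => ?_⟩
  · refine h.unif (Pool.Agent.MP_e211d6_h89.diag ρ v) hv (fun h0 => hne ?_) Z fun k hk => ?_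
    · funext k
      have := congrFun h0 k
      rw [diag_apply] at this
      rcases mul_eq_zero.1 this with h1 | h1
      · exact absurd h1 (hρ0 k)
      · exact h1
    · rw [diag_apply, hZ k hk, mul_zero]
  · obtain ⟨v, hv, hne, hvJ⟩ := h.dim J hJ
    refine ⟨fun k => ρ k * v k, ?_, fun h0 => hne ?_, fun j hj => by simp [hvJ j hj]⟩
    · rw [Submodule.mem_comap]
      have : Pool.Agent.MP_e211d6_h89.diag ρ (fun k => ρ k * v k) = v := by
        funext k
        rw [diag_apply, ← mul_assoc, hρ2, one_mul]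
      rw [this]
      exact hv
    · funext k
      have := congrFun h0 k
      rcases mul_eq_zero.1 this with h1 | h1
      · exact absurd h1 (hρ0 k)
      · exact h1

theorem sg_mul_pos {x y w : ℝ} (h : 0 < x * y * w) :
    0 < (if 0 < x then (1 : ℝ) else -1) * (if 0 < y then 1 else -1) * w := by
  have hx : x ≠ 0 := by rintro rfl; simp at h
  have hy : y ≠ 0 := by rintro rfl; simp at h
  rcases lt_or_gt_of_ne hx with hx | hx <;> rcases lt_or_gt_of_ne hy with hy | hy
  · rw [if_neg (by linarith), if_neg (by linarith)]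
    have := mul_pos_of_neg_of_neg hx hy
    have := (mul_pos_iff_of_pos_left this).1 h
    linarith
  · rw [if_neg (by linarith), if_pos hy]
    have h1 := mul_neg_of_neg_of_pos hx hy
    have : w < 0 := by
      by_contra hcon
      push Not at hcon
      have := mul_nonpos_of_nonpos_of_nonneg h1.le hcon
      linarith
    linarith
  · rw [if_pos hx, if_neg (by linarith)]
    have h1 := mul_neg_of_pos_of_neg hx hy
    have : w < 0 := by
      by_contra hcon
      push Not at hcon
      have := mul_nonpos_of_nonpos_of_nonneg h1.le hcon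
      linarith
    linarith
  · rw [if_pos hx, if_pos hy]
    have := mul_pos hx hy
    have := (mul_pos_iff_of_pos_left this).1 h
    linarith

theorem Sys.good (h : Sys V s) (hs : 3 ≤ s) (hE : 2 * s ≤ Fintype.card E + 1) : Good V s := by
  have hcard : 1 < Fintype.card E := by omega
  obtain ⟨a, b, hab⟩ := Fintype.exists_pair_of_one_lt_card hcard
  have hU : ∀ S : Finset E, ∀ m, S.card = s → m ∈ S →
      ∃ v, v ∈ V ∧ v m = 1 ∧ ∀ m' ∈ S, m' ≠ m → v m' = 0 := fun S m hS hm => by
    obtain ⟨v, h1, h2, h3⟩ := h.exists_dual hS hm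
    exact ⟨v, h1, h2, h3⟩
  choose! U hUV hU1 hU0 using hU
  have huniq : ∀ S : Finset E, ∀ m, S.card = s → m ∈ S → ∀ v ∈ V, v m = 1 →
      (∀ m' ∈ S, m' ≠ m → v m' = 0) → U S m = v := by
    intro S m hS hm v hv h1 h0
    have := h.eq_zero (V.sub_mem (hUV S m hS hm) hv) S hS.ge fun k hk => by
      by_cases hkm : k = m
      · rw [hkm, Pi.sub_apply, hU1 S m hS hm, h1, sub_self]
      · rw [Pi.sub_apply, hU0 S m hS hm k hk hkm, h0 k hk hkm, sub_self]
    exact sub_eq_zero.1 this
  have hUne : ∀ S : Finset E, ∀ m, S.card = s → m ∈ S → ∀ k ∉ S, U S m k ≠ 0 := by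
    intro S m hS hm k hk h0
    have h1 := h.unif (U S m) (hUV S m hS hm) (fun hh => by
      have := hU1 S m hS hm
      rw [hh] at this
      simp at this) (insert k (S.erase m)) (by
      intro k' hk'
      rcases Finset.mem_insert.1 hk' with rfl | hk'
      · exact h0
      · exact hU0 S m hS hm k' (Finset.mem_of_mem_erase hk') (Finset.ne_of_mem_erase hk'))
    rw [Finset.card_insert_of_notMem (fun hh => hk (Finset.mem_of_mem_erase hh)),
      Finset.card_erase_of_mem hm] at h1
    have := Finset.card_pos.2 ⟨m, hm⟩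
    omega
  -- the maximising `S`
  have hne : ((Finset.powersetCard s (univ : Finset E)).filter fun S => a ∈ S ∧ b ∉ S).Nonempty := by
    have h1 : s - 1 ≤ ((univ : Finset E) \ {a, b}).card := by
      rw [Finset.card_sdiff_of_subset (Finset.subset_univ _), Finset.card_univ,
        Finset.card_pair hab]
      omega
    obtain ⟨S0, hS0, hS0c⟩ := Finset.exists_subset_card_eq h1
    have haS : a ∉ S0 := fun hh => by
      have := (Finset.mem_sdiff.1 (hS0 hh)).2
      simp at this
    have hbS : b ∉ S0 := fun hh => by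
      have := (Finset.mem_sdiff.1 (hS0 hh)).2
      simp at this
    refine ⟨insert a S0, Finset.mem_filter.2 ⟨Finset.mem_powersetCard.2
      ⟨Finset.subset_univ _, ?_⟩, Finset.mem_insert_self _ _, ?_⟩⟩
    · rw [Finset.card_insert_of_notMem haS, hS0c]
      omega
    · rw [Finset.mem_insert, not_or]
      exact ⟨hab.symm, hbS⟩
  obtain ⟨S, hS, hmax⟩ := Finset.exists_max_image _ (fun S => |U S a b|) hne
  obtain ⟨hS1, haS, hbS⟩ := Finset.mem_filter.1 hS
  have hSc := (Finset.mem_powersetCard.1 hS1).2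
  have key : ∀ m ∈ S, ∀ k ∉ S, 0 < U S m b * (U S a k * U S a b) * U S m k := by
    intro m hm k hk
    have hab0 := hUne S a hSc haS b hbS
    have hak0 := hUne S a hSc haS k hk
    have hmb0 := hUne S m hSc hm b hbS
    have hmk0 := hUne S m hSc hm k hk
    by_cases hma : m = a
    · rw [hma]
      have h1 := mul_self_pos.2 hab0
      have h2 := mul_self_pos.2 hak0
      have h3 := mul_pos h1 h2
      calc (0 : ℝ) < _ := h3
        _ = _ := by ring
    by_cases hkb : k = b
    · rw [hkb]
      have h1 := mul_self_pos.2 hab0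
      have h2 := mul_self_pos.2 hmb0
      have h3 := mul_pos h1 h2
      calc (0 : ℝ) < _ := h3
        _ = _ := by ring
    have hkS' : k ∉ S.erase m := fun hh => hk (Finset.mem_of_mem_erase hh)
    have hS'c : (insert k (S.erase m)).card = s := by
      rw [Finset.card_insert_of_notMem hkS', Finset.card_erase_of_mem hm]
      have := Finset.card_pos.2 ⟨m, hm⟩
      omega
    have haS' : a ∈ insert k (S.erase m) :=
      Finset.mem_insert_of_mem (Finset.mem_erase.2 ⟨Ne.symm hma, haS⟩)
    have hbS' : b ∉ insert k (S.erase m) := by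
      rw [Finset.mem_insert, not_or]
      exact ⟨Ne.symm hkb, fun hh => hbS (Finset.mem_of_mem_erase hh)⟩
    have h1 := hmax (insert k (S.erase m)) (Finset.mem_filter.2 ⟨Finset.mem_powersetCard.2
      ⟨Finset.subset_univ _, hS'c⟩, haS', hbS'⟩)
    have h2 := huniq (insert k (S.erase m)) a hS'c haS'
      (U S a - (U S a k / U S m k) • U S m)
      (V.sub_mem (hUV S a hSc haS) (V.smul_mem _ (hUV S m hSc hm))) (by
        simp [hU1 S a hSc haS, hU0 S m hSc hm a haS (Ne.symm hma)]) (by
        intro m' hm' hm'a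
        rcases Finset.mem_insert.1 hm' with rfl | hm'
        · simp only [Pi.sub_apply, Pi.smul_apply, smul_eq_mul]
          field_simp
          ring
        · have h3 := hU0 S a hSc haS m' (Finset.mem_of_mem_erase hm') hm'a
          have h4 := hU0 S m hSc hm m' (Finset.mem_of_mem_erase hm') (Finset.ne_of_mem_erase hm')
          simp [h3, h4])
    simp only [h2, Pi.sub_apply, Pi.smul_apply, smul_eq_mul] at h1
    set X := U S a b with hX
    set Y := U S a k / U S m k * U S m b with hY
    have hYne : Y ≠ 0 := mul_ne_zero (div_ne_zero hak0 hmk0) hmb0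
    have hXY : 0 < X * Y := by
      have h3 : (X - Y) ^ 2 ≤ X ^ 2 := sq_le_sq.2 h1
      have h4 := mul_self_pos.2 hYne
      nlinarith
    have h5 : X * Y * (U S m k * U S m k) = U S m b * (U S a k * X) * U S m k := by
      rw [hY]
      field_simp
    rw [← h5]
    exact mul_pos hXY (mul_self_pos.2 hmk0)
  set ρ : E → ℝ := fun k => if k ∈ S then (if 0 < U S k b then 1 else -1) else
    (if 0 < U S a k * U S a b then 1 else -1) with hρdef
  have hρ : ∀ k, ρ k = 1 ∨ ρ k = -1 := by
    intro k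
    simp only [hρdef]
    split_ifs <;> simp
  have hρ2 : ∀ k, ρ k * ρ k = 1 := fun k => by rcases hρ k with h1 | h1 <;> rw [h1] <;> norm_num
  refine good_of_diag hρ ?_
  have hpos : Pos (V.comap (Pool.Agent.MP_e211d6_h89.diag ρ)) s S
      (fun m k => ρ m * ρ k * U S m k) := by
    refine ⟨h.diag hρ, hSc, fun m hm => ?_, fun m hm => ?_, fun m hm m' hm' hne => ?_,
      fun m hm k hk => ?_⟩
    · rw [Submodule.mem_comap]
      have : Pool.Agent.MP_e211d6_h89.diag ρ (fun k => ρ m * ρ k * U S m k) = ρ m • U S m := by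
        funext k
        rw [diag_apply, Pi.smul_apply, smul_eq_mul]
        calc ρ k * (ρ m * ρ k * U S m k) = ρ k * ρ k * (ρ m * U S m k) := by ring
          _ = ρ m * U S m k := by rw [hρ2, one_mul]
      rw [this]
      exact V.smul_mem _ (hUV S m hSc hm)
    · simp only [hU1 S m hSc hm, hρ2, mul_one]
    · simp only [hU0 S m hSc hm m' hm' hne, mul_zero]
    · have h1 := sg_mul_pos (key m hm k hk)
      simp only [hρdef, if_pos hm, if_neg hk]
      exact h1
  exact hpos.good hs hE

end Pool.Agent.MP_e211d6_h89
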