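import Pool.Agent.Lib_MP_e211d6_h89.Good

/-!
# Self-dual families of topes: the linear core
-/

namespace Pool.Agent.MP_e211d6_h89

open Finset

variable {E : Type*} [Fintype E] [DecidableEq E]

/-- `A` is the positive part of a vector of `L` without zeros -/
def Tope (L : Submodule ℝ (E → ℝ)) (A : Finset E) : Prop :=
  ∃ u ∈ L, (∀ k ∈ A, 0 < u k) ∧ ∀ k ∉ A, u k < 0

theorem exists_perturb (u g : E → ℝ) :
    ∃ δ : ℝ, 0 < δ ∧ ∀ k, (0 < u k → 0 < u k + δ * g k) ∧ (u k < 0 → u k + δ * g k < 0) := by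
  have h : ∀ k, ∀ᶠ δ in nhdsWithin (0 : ℝ) (Set.Ioi 0),
      (0 < u k → 0 < u k + δ * g k) ∧ (u k < 0 → u k + δ * g k < 0) := by
    intro k
    have ht : Filter.Tendsto (fun δ : ℝ => u k + δ * g k) (nhdsWithin 0 (Set.Ioi 0))
        (nhds (u k)) := by
      have : Filter.Tendsto (fun δ : ℝ => u k + δ * g k) (nhds 0) (nhds (u k + 0 * g k)) :=
        (continuous_const.add (continuous_id.mul continuous_const)).tendsto 0
      rw [zero_mul, add_zero] at this
      exact this.mono_left nhdsWithin_le_nhds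
    rcases lt_trichotomy (u k) 0 with h | h | h
    · filter_upwards [ht.eventually (gt_mem_nhds h)] with δ hδ
      exact ⟨fun h' => absurd h' (not_lt.2 h.le), fun _ => hδ⟩
    · exact Filter.Eventually.of_forall fun δ => ⟨fun h' => absurd h' (by rw [h]; exact lt_irrefl _),
        fun h' => absurd h' (by rw [h]; exact lt_irrefl _)⟩
    · filter_upwards [ht.eventually (lt_mem_nhds h)] with δ hδ
      exact ⟨fun _ => hδ, fun h' => absurd h' (not_lt.2 h.le)⟩
  have h2 := (Filter.eventually_all.2 h).and self_mem_nhdsWithin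
  obtain ⟨δ, h3, h4⟩ := h2.exists
  exact ⟨δ, h4, h3⟩

variable {L V : Submodule ℝ (E → ℝ)} {s : ℕ}

theorem Sys.surj (h : Sys L s) (hE : s ≤ Fintype.card E) {Z : Finset E} (hZ : Z.card ≤ s)
    (g : E → ℝ) : ∃ u ∈ L, ∀ k ∈ Z, u k = g k := by
  obtain ⟨S, hZS, -, hS⟩ := Finset.exists_subsuperset_card_eq (Finset.subset_univ Z) hZ
    (by rw [Finset.card_univ]; exact hE)
  have hU : ∀ m, m ∈ S → ∃ v, v ∈ L ∧ v m = 1 ∧ ∀ m' ∈ S, m' ≠ m → v m' = 0 := fun m hm => by
    obtain ⟨v, h1, h2, h3⟩ := h.exists_dual hS hm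
    exact ⟨v, h1, h2, h3⟩
  choose! U hUL hU1 hU0 using hU
  refine ⟨∑ m ∈ S, g m • U m, L.sum_mem fun m hm => L.smul_mem _ (hUL m hm), fun k hk => ?_⟩
  have hkS := hZS hk
  rw [Finset.sum_apply, Finset.sum_eq_single_of_mem k hkS]
  · rw [Pi.smul_apply, hU1 k hkS, smul_eq_mul, mul_one]
  · intro m hm hmk
    rw [Pi.smul_apply, hU0 m hm k hkS hmk.symm, smul_zero]

/-- resolving the zeros of a vector arbitrarily -/
theorem Sys.tope_of_zero (h : Sys L s) (hE : s ≤ Fintype.card E) {u : E → ℝ} (hu : u ∈ L)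
    {Z P : Finset E} (hZ : Z.card ≤ s) (hP : ∀ k ∉ Z, (k ∈ P → 0 < u k) ∧ (k ∉ P → u k < 0))
    (hZ0 : ∀ k ∈ Z, u k = 0) : Tope L P := by
  obtain ⟨g, hg, hgZ⟩ := h.surj hE hZ (fun k => if k ∈ P then 1 else -1)
  obtain ⟨δ, hδ, hδk⟩ := exists_perturb u g
  refine ⟨u + δ • g, L.add_mem hu (L.smul_mem _ hg), fun k hk => ?_, fun k hk => ?_⟩
  · simp only [Pi.add_apply, Pi.smul_apply, smul_eq_mul]
    by_cases hkZ : k ∈ Z
    · rw [hZ0 k hkZ, hgZ k hkZ, if_pos hk]
      linarith
    · exact (hδk k).1 ((hP k hkZ).1 hk)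
  · simp only [Pi.add_apply, Pi.smul_apply, smul_eq_mul]
    by_cases hkZ : k ∈ Z
    · rw [hZ0 k hkZ, hgZ k hkZ, if_neg hk]
      linarith
    · exact (hδk k).2 ((hP k hkZ).2 hk)

/-- a convex set with points of all sign patterns on `X` has a point vanishing on `X` -/
theorem exists_zero_of_patterns (X : Finset E) : ∀ C : Set (E → ℝ), Convex ℝ C →
    (∀ Q ⊆ X, ∃ w ∈ C, (∀ i ∈ Q, 0 < w i) ∧ ∀ i ∈ X, i ∉ Q → w i < 0) →
    ∃ w ∈ C, ∀ i ∈ X, w i = 0 := by
  induction X using Finset.induction_on with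
  | empty =>
    intro C _ h
    obtain ⟨w, hw, -⟩ := h ∅ (Finset.Subset.refl _)
    exact ⟨w, hw, by simp⟩
  | insert a X ha ih =>
    intro C hC h
    obtain ⟨w, ⟨hw, hwa⟩, hwX⟩ := ih (C ∩ {w | w a = 0}) (hC.inter (by
      intro x hx y hy α β _ _ _
      have hx' : x a = 0 := hx
      have hy' : y a = 0 := hy
      show (α • x + β • y) a = 0
      simp [hx', hy'])) (by
      intro Q hQ
      have haQ : a ∉ Q := fun hh => ha (hQ hh)
      obtain ⟨w1, hw1, h1, h1'⟩ := h (insert a Q) (Finset.insert_subset_insert _ hQ)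
      obtain ⟨w2, hw2, h2, h2'⟩ := h Q (hQ.trans (Finset.subset_insert _ _))
      have ha1 : 0 < w1 a := h1 a (Finset.mem_insert_self _ _)
      have ha2 : w2 a < 0 := h2' a (Finset.mem_insert_self _ _) haQ
      have hpos : 0 < w1 a - w2 a := by linarith
      have hα : 0 < -w2 a / (w1 a - w2 a) := div_pos (by linarith) hpos
      have hβ : 0 < w1 a / (w1 a - w2 a) := div_pos ha1 hpos
      refine ⟨(-w2 a / (w1 a - w2 a)) • w1 + (w1 a / (w1 a - w2 a)) • w2,
        ⟨hC hw1 hw2 hα.le hβ.le ?_, ?_⟩, fun i hi => ?_, fun i hi hiQ => ?_⟩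
      · rw [← add_div]
        field_simp
        ring
      · show ((-w2 a / (w1 a - w2 a)) • w1 + (w1 a / (w1 a - w2 a)) • w2) a = 0
        simp only [Pi.add_apply, Pi.smul_apply, smul_eq_mul]
        ring
      · simp only [Pi.add_apply, Pi.smul_apply, smul_eq_mul]
        exact add_pos (mul_pos hα (h1 i (Finset.mem_insert_of_mem hi))) (mul_pos hβ (h2 i hi))
      · simp only [Pi.add_apply, Pi.smul_apply, smul_eq_mul]
        have hia : i ∉ insert a Q := by
          rw [Finset.mem_insert, not_or]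
          exact ⟨fun hh => ha (hh ▸ hi), hiQ⟩
        exact add_neg (mul_neg_of_pos_of_neg hα (h1' i (Finset.mem_insert_of_mem hi) hia))
          (mul_neg_of_pos_of_neg hβ (h2' i (Finset.mem_insert_of_mem hi) hiQ)))
    refine ⟨w, hw, fun i hi => ?_⟩
    rcases Finset.mem_insert.1 hi with rfl | hi
    · exact hwa
    · exact hwX i hi

/-- the setting: `L` has self-dual topes and no complete cell -/
structure SD (L : Submodule ℝ (E → ℝ)) (s : ℕ) (G : Finset E) : Prop where
  sys : Sys L s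
  three : 3 ≤ s
  card : Fintype.card E = 2 * s
  dual : ∀ A, Tope L A ↔ ¬ Tope L (symmDiff A G)
  crit : ∀ A : Finset E, ∃ k, ∃ u ∈ L, ∀ i, i ≠ k → (i ∈ A → 0 < u i) ∧ (i ∉ A → u i < 0)

variable {G : Finset E}

theorem mem_symmDiff_singleton {A : Finset E} {k i : E} :
    i ∈ symmDiff A {k} ↔ (i ≠ k ∧ i ∈ A) ∨ (i = k ∧ i ∉ A) := by
  rw [Finset.mem_symmDiff, Finset.mem_singleton]
  tauto

theorem SD.nonfacet (h : SD L s G) {B : Finset E} (hB : Tope L B) :
    ∃ k, ¬ Tope L (symmDiff B {k}) ∧ ∃ u ∈ L, ∀ i, i ≠ k →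
      (i ∈ symmDiff B G → 0 < u i) ∧ (i ∉ symmDiff B G → u i < 0) := by
  have hA : ¬ Tope L (symmDiff B G) := (h.dual B).1 hB
  obtain ⟨k, u, hu, huk⟩ := h.crit (symmDiff B G)
  refine ⟨k, ?_, u, hu, huk⟩
  -- the sign of `u k` is wrong
  have hT : Tope L (symmDiff (symmDiff B G) {k}) := by
    have hcases : u k = 0 ∨ (k ∈ symmDiff B G ∧ u k < 0) ∨ (k ∉ symmDiff B G ∧ 0 < u k) := by
      rcases lt_trichotomy (u k) 0 with h0 | h0 | h0
      · by_cases hk : k ∈ symmDiff B G
        · exact Or.inr (Or.inl ⟨hk, h0⟩)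
        · exfalso
          refine hA ⟨u, hu, fun i hi => ?_, fun i hi => ?_⟩
          · exact (huk i (by rintro rfl; exact hk hi)).1 hi
          · by_cases hik : i = k
            · rw [hik]; exact h0
            · exact (huk i hik).2 hi
      · exact Or.inl h0
      · by_cases hk : k ∈ symmDiff B G
        · exfalso
          refine hA ⟨u, hu, fun i hi => ?_, fun i hi => ?_⟩
          · by_cases hik : i = k
            · rw [hik]; exact h0
            · exact (huk i hik).1 hi
          · exact (huk i (by rintro rfl; exact hi hk)).2 hi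
        · exact Or.inr (Or.inr ⟨hk, h0⟩)
    rcases hcases with h0 | ⟨hk, h0⟩ | ⟨hk, h0⟩
    · refine h.sys.tope_of_zero (by rw [h.card]; omega) hu (Z := {k})
        (by rw [Finset.card_singleton]; have := h.three; omega) (fun i hi => ?_) (fun i hi => ?_)
      · have hik : i ≠ k := by simpa using hi
        rw [mem_symmDiff_singleton]
        exact ⟨fun hh => (huk i hik).1 (by tauto), fun hh => (huk i hik).2 (by tauto)⟩
      · rw [Finset.mem_singleton.1 hi]; exact h0
    · refine ⟨u, hu, fun i hi => ?_, fun i hi => ?_⟩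
      · rw [mem_symmDiff_singleton] at hi
        rcases hi with ⟨h1, h2⟩ | ⟨h1, h2⟩
        · exact (huk i h1).1 h2
        · exact absurd (h1 ▸ hk) h2
      · rw [mem_symmDiff_singleton] at hi
        by_cases hik : i = k
        · rw [hik]; exact h0
        · exact (huk i hik).2 (by tauto)
    · refine ⟨u, hu, fun i hi => ?_, fun i hi => ?_⟩
      · rw [mem_symmDiff_singleton] at hi
        by_cases hik : i = k
        · rw [hik]; exact h0
        · exact (huk i hik).1 (by tauto)
      · rw [mem_symmDiff_singleton] at hi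
        by_cases hik : i = k
        · exact absurd (Or.inr ⟨hik, hik ▸ hk⟩) hi
        · exact (huk i hik).2 (by tauto)
  intro hcon
  refine (h.dual _).1 hcon ?_
  rwa [symmDiff_right_comm]

/-- cells of the subspace of vectors vanishing on `X` -/
def TW (L : Submodule ℝ (E → ℝ)) (X B : Finset E) : Prop :=
  ∃ u ∈ L, (∀ k ∈ X, u k = 0) ∧ (∀ k ∈ B, 0 < u k) ∧ ∀ k, k ∉ X → k ∉ B → u k < 0

theorem TW.disj {X B : Finset E} (h : TW L X B) {k : E} (hk : k ∈ B) : k ∉ X := by
  obtain ⟨u, -, h0, h1, -⟩ := h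
  intro hX
  have := h1 k hk
  rw [h0 k hX] at this
  exact lt_irrefl _ this

theorem SD.tope_union (h : SD L s G) {X B H : Finset E} (hX : X.card ≤ s) (hB : TW L X B)
    (hH : H ⊆ X) : Tope L (B ∪ H) := by
  obtain ⟨u, hu, h0, h1, h2⟩ := hB
  refine h.sys.tope_of_zero (by rw [h.card]; omega) hu hX (fun k hk => ?_) h0
  rw [Finset.mem_union]
  refine ⟨fun hh => ?_, fun hh => ?_⟩
  · rcases hh with hh | hh
    · exact h1 k hh
    · exact absurd (hH hh) hk
  · exact h2 k hk fun hh' => hh (Or.inl hh')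

theorem SD.exists_w (h : SD L s G) {X B : Finset E} (hX : X.card ≤ s) (hB : TW L X B) :
    ∃ w ∈ L, (∀ k ∈ X, w k = 0) ∧ ∀ m, m ∉ X → TW L X (symmDiff B {m}) →
      (m ∈ symmDiff B G → 0 < w m) ∧ (m ∉ symmDiff B G → w m < 0) := by
  let C : Set (E → ℝ) := {w | w ∈ L ∧ ∀ m, m ∉ X → TW L X (symmDiff B {m}) →
      (m ∈ symmDiff B G → 0 < w m) ∧ (m ∉ symmDiff B G → w m < 0)}
  have hC : Convex ℝ C := by
    rintro x ⟨hx, hx'⟩ y ⟨hy, hy'⟩ α β hα hβ hαβ
    refine ⟨L.add_mem (L.smul_mem _ hx) (L.smul_mem _ hy), fun m hm hT => ?_⟩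
    obtain ⟨h1, h2⟩ := hx' m hm hT
    obtain ⟨h3, h4⟩ := hy' m hm hT
    simp only [Pi.add_apply, Pi.smul_apply, smul_eq_mul]
    rcases hα.eq_or_lt with h0 | h0
    · have hβ1 : β = 1 := by linarith
      rw [← h0, hβ1]
      simp only [zero_mul, one_mul, zero_add]
      exact ⟨h3, h4⟩
    · refine ⟨fun hh => ?_, fun hh => ?_⟩
      · have := mul_pos h0 (h1 hh)
        have := mul_nonneg hβ (h3 hh).le
        linarith
      · have := mul_neg_of_pos_of_neg h0 (h2 hh)
        have := mul_nonpos_of_nonneg_of_nonpos hβ (h4 hh).le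
        linarith
  obtain ⟨w, ⟨hw, hw'⟩, hw0⟩ := exists_zero_of_patterns X C hC (by
    intro Q hQ
    -- the extension of `B` whose dual pattern on `X` is `Q`
    set H := X.filter fun i => ¬ (i ∈ Q ↔ i ∈ G) with hH
    have hHX : H ⊆ X := Finset.filter_subset _ _
    obtain ⟨k, hk, u, hu, huk⟩ := h.nonfacet (h.tope_union hX hB hHX)
    have hkX : k ∉ X := by
      intro hkX
      refine hk ?_
      have h1 : symmDiff (B ∪ H) {k} = B ∪ symmDiff H {k} := by
        ext i
        rw [Finset.mem_union, mem_symmDiff_singleton, mem_symmDiff_singleton, Finset.mem_union]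
        have : i = k → i ∉ B := by
          rintro rfl hh
          exact hB.disj hh hkX
        tauto
      rw [h1]
      refine h.tope_union hX hB fun i hi => ?_
      rw [mem_symmDiff_singleton] at hi
      rcases hi with ⟨_, hi⟩ | ⟨hi, _⟩
      · exact hHX hi
      · rw [hi]; exact hkX
    have hkT : ¬ TW L X (symmDiff B {k}) := by
      intro hT
      refine hk ?_
      have h1 : symmDiff (B ∪ H) {k} = symmDiff B {k} ∪ H := by
        ext i
        rw [Finset.mem_union, mem_symmDiff_singleton, mem_symmDiff_singleton, Finset.mem_union]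
        have : i = k → i ∉ H := by
          rintro rfl hh
          exact hkX (hHX hh)
        tauto
      rw [h1]
      exact h.tope_union hX hT hHX
    refine ⟨u, ⟨hu, fun m hm hT => ?_⟩, fun i hi => ?_, fun i hi hiQ => ?_⟩
    · have hmk : m ≠ k := by rintro rfl; exact hkT hT
      have h1 : m ∈ symmDiff (B ∪ H) G ↔ m ∈ symmDiff B G := by
        rw [Finset.mem_symmDiff, Finset.mem_symmDiff, Finset.mem_union]
        have : m ∉ H := fun hh => hm (hHX hh)
        tauto
      rw [← h1]
      exact huk m hmk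
    · have hiX := hQ hi
      have hik : i ≠ k := by rintro rfl; exact hkX hiX
      have hiB : i ∉ B := fun hh => hB.disj hh hiX
      refine (huk i hik).1 ?_
      rw [Finset.mem_symmDiff, Finset.mem_union, hH, Finset.mem_filter]
      tauto
    · have hik : i ≠ k := by rintro rfl; exact hkX hi
      have hiB : i ∉ B := fun hh => hB.disj hh hi
      refine (huk i hik).2 ?_
      rw [Finset.mem_symmDiff, Finset.mem_union, hH, Finset.mem_filter]
      tauto)
  exact ⟨w, hw, hw0, hw'⟩

/-- `{i, j}` is a vertex of the cell `B` -/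
def Vx (L : Submodule ℝ (E → ℝ)) (X B : Finset E) (i j : E) : Prop :=
  ∃ p ∈ L, (∀ k ∈ X, p k = 0) ∧ p i = 0 ∧ p j = 0 ∧
    ∀ k, k ∉ X → k ≠ i → k ≠ j → (k ∈ B → 0 < p k) ∧ (k ∉ B → p k < 0)

/-- resolving the two zeros of a vertex -/
theorem SD.tw_of_vx (h : SD L s G) {X B B' : Finset E} {i j : E} (hX : X.card + 3 = s)
    (hi : i ∉ X) (hj : j ∉ X) (hv : Vx L X B i j)
    (hB' : ∀ k, k ≠ i → k ≠ j → (k ∈ B' ↔ k ∈ B)) (hBX : Disjoint B' X) : TW L X B' := by
  obtain ⟨p, hp, h0, hpi, hpj, hpk⟩ := hv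
  obtain ⟨g, hg, hgZ⟩ := h.sys.surj (by rw [h.card]; omega) (Z := insert i (insert j X)) (by
    have h1 := Finset.card_insert_le i (insert j X)
    have h2 := Finset.card_insert_le j X
    omega) (fun k => if k ∈ X then 0 else if k ∈ B' then 1 else -1)
  obtain ⟨δ, hδ, hδk⟩ := exists_perturb p g
  have hgi := hgZ i (by simp)
  have hgj := hgZ j (by simp)
  simp only [hi, hj, if_false] at hgi hgj
  refine ⟨p + δ • g, L.add_mem hp (L.smul_mem _ hg), fun k hk => ?_, fun k hk => ?_,
    fun k hkX hk => ?_⟩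
  · have := hgZ k (by simp [hk])
    simp only [hk, if_true] at this
    simp [h0 k hk, this]
  · have hkX : k ∉ X := Finset.disjoint_left.1 hBX hk
    simp only [Pi.add_apply, Pi.smul_apply, smul_eq_mul]
    by_cases hki : k = i
    · subst hki
      rw [if_pos hk] at hgi
      rw [hpi, hgi]
      linarith
    · by_cases hkj : k = j
      · subst hkj
        rw [if_pos hk] at hgj
        rw [hpj, hgj]
        linarith
      · exact (hδk k).1 ((hpk k hkX hki hkj).1 ((hB' k hki hkj).1 hk))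
  · simp only [Pi.add_apply, Pi.smul_apply, smul_eq_mul]
    by_cases hki : k = i
    · subst hki
      rw [if_neg hk] at hgi
      rw [hpi, hgi]
      linarith
    · by_cases hkj : k = j
      · subst hkj
        rw [if_neg hk] at hgj
        rw [hpj, hgj]
        linarith
      · exact (hδk k).2 ((hpk k hkX hki hkj).2 fun hh => hk ((hB' k hki hkj).2 hh))

/-- the functional attached to a bichromatic vertex -/
theorem SD.no_three (h : SD L s G) {X B : Finset E} (hX : X.card + 3 = s) (hB : TW L X B)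
    {i j : Fin 3 → E} (hi : ∀ a, i a ∉ X ∧ i a ∈ G) (hj : ∀ a, j a ∉ X ∧ j a ∉ G)
    (hv : ∀ a, Vx L X B (i a) (j a)) (hne : ∀ a b, a ≠ b → i a ≠ i b ∨ j a ≠ j b) : False := by
  obtain ⟨w, hw, hw0, hwm⟩ := h.exists_w (by omega) hB
  have hBX : Disjoint B X := Finset.disjoint_left.2 fun k hk => hB.disj hk
  have hside : ∀ a m, (m = i a ∨ m = j a) → TW L X (symmDiff B {m}) := by
    intro a m hm
    have hmX : m ∉ X := by
      rcases hm with rfl | rfl
      · exact (hi a).1
      · exact (hj a).1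
    refine h.tw_of_vx hX (hi a).1 (hj a).1 (hv a) (fun k hki hkj => ?_) ?_
    · rw [mem_symmDiff_singleton]
      have : k ≠ m := by
        rcases hm with rfl | rfl
        · exact hki
        · exact hkj
      tauto
    · rw [Finset.disjoint_left]
      intro k hk
      rw [mem_symmDiff_singleton] at hk
      rcases hk with ⟨_, hk⟩ | ⟨hk, _⟩
      · exact Finset.disjoint_left.1 hBX hk
      · rw [hk]; exact hmX
  choose p hp hp0 hpi hpj hpk using hv
  have hij : ∀ a b, i a ≠ j b := by
    intro a b hh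
    exact (hj b).2 (hh ▸ (hi a).2)
  -- signs of `w` at the sides
  have hwi : ∀ a, (i a ∈ B → w (i a) < 0) ∧ (i a ∉ B → 0 < w (i a)) := by
    intro a
    obtain ⟨h1, h2⟩ := hwm (i a) (hi a).1 (hside a _ (Or.inl rfl))
    have hG := (hi a).2
    rw [Finset.mem_symmDiff] at h1 h2
    exact ⟨fun hh => h2 (by tauto), fun hh => h1 (by tauto)⟩
  have hwj : ∀ a, (j a ∈ B → 0 < w (j a)) ∧ (j a ∉ B → w (j a) < 0) := by
    intro a
    obtain ⟨h1, h2⟩ := hwm (j a) (hj a).1 (hside a _ (Or.inr rfl))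
    have hG := (hj a).2
    rw [Finset.mem_symmDiff] at h1 h2
    exact ⟨fun hh => h1 (by tauto), fun hh => h2 (by tauto)⟩
  have hwi0 : ∀ a, w (i a) ≠ 0 := by
    intro a
    by_cases hh : i a ∈ B
    · exact ((hwi a).1 hh).ne
    · exact ((hwi a).2 hh).ne'
  have hwj0 : ∀ a, w (j a) ≠ 0 := by
    intro a
    by_cases hh : j a ∈ B
    · exact ((hwj a).1 hh).ne'
    · exact ((hwj a).2 hh).ne
  let ψ : Fin 3 → (E → ℝ) → ℝ := fun a u => u (i a) / w (i a) - u (j a) / w (j a)
  have hψw : ∀ a, ψ a w = 0 := by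
    intro a
    simp only [ψ, div_self (hwi0 a), div_self (hwj0 a), sub_self]
  have hψp : ∀ a, ψ a (p a) = 0 := by
    intro a
    simp only [ψ, hpi a, hpj a, zero_div, sub_self]
  have hψn : ∀ a b, a ≠ b → ψ a (p b) < 0 := by
    intro a b hab
    have h1 : p b (i a) / w (i a) ≤ 0 ∧ (i a ≠ i b → p b (i a) / w (i a) < 0) := by
      by_cases hh : i a = i b
      · rw [hh, hpi b, zero_div]
        exact ⟨le_rfl, fun h => absurd rfl h⟩
      · have h2 := hpk b (i a) (hi a).1 hh (hij a b)
        have h3 : p b (i a) / w (i a) < 0 := by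
          by_cases hB : i a ∈ B
          · exact div_neg_of_pos_of_neg (h2.1 hB) ((hwi a).1 hB)
          · exact div_neg_of_neg_of_pos (h2.2 hB) ((hwi a).2 hB)
        exact ⟨h3.le, fun _ => h3⟩
    have h2 : 0 ≤ p b (j a) / w (j a) ∧ (j a ≠ j b → 0 < p b (j a) / w (j a)) := by
      by_cases hh : j a = j b
      · rw [hh, hpj b, zero_div]
        exact ⟨le_rfl, fun h => absurd rfl h⟩
      · have h2 := hpk b (j a) (hj a).1 (Ne.symm (hij b a)) hh
        have h3 : 0 < p b (j a) / w (j a) := by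
          by_cases hB : j a ∈ B
          · exact div_pos (h2.1 hB) ((hwj a).1 hB)
          · exact div_pos_of_neg_of_neg (h2.2 hB) ((hwj a).2 hB)
        exact ⟨h3.le, fun _ => h3⟩
    simp only [ψ]
    rcases hne a b hab with hh | hh
    · have := h1.2 hh
      have := h2.1
      linarith
    · have := h1.1
      have := h2.2 hh
      linarith
  -- a linear relation
  obtain ⟨T, hXT, -, hTc⟩ := Finset.exists_subsuperset_card_eq (Finset.subset_univ X)
    (by omega : X.card ≤ s) (by rw [Finset.card_univ, h.card]; omega)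
  have hTX : (T \ X).card = 3 := by
    rw [Finset.card_sdiff_of_subset hXT]
    omega
  let q : Fin 4 → (E → ℝ) := ![p 0, p 1, p 2, w]
  let Λ : (Fin 4 → ℝ) →ₗ[ℝ] ((T \ X : Finset E) → ℝ) :=
    { toFun := fun c k => ∑ r, c r * q r k
      map_add' := fun c c' => by
        funext k
        simp only [Pi.add_apply, add_mul, Finset.sum_add_distrib]
      map_smul' := fun t c => by
        funext k
        simp only [Pi.smul_apply, smul_eq_mul, RingHom.id_apply, mul_assoc, Finset.mul_sum] }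
  have hker := LinearMap.ker_ne_bot_of_finrank_lt (f := Λ) (by
    rw [Module.finrank_fintype_fun_eq_card, Module.finrank_fintype_fun_eq_card, Fintype.card_coe,
      Fintype.card_fin, hTX]
    norm_num)
  obtain ⟨c, hc, hcne⟩ := (Submodule.ne_bot_iff _).1 hker
  have hc0 : ∀ k, k ∈ T \ X → ∑ r, c r * q r k = 0 := fun k hk => congrFun (hc : Λ c = 0) ⟨k, hk⟩
  have hzero : ∑ r, c r • q r = 0 := by
    have hqL : ∀ r, q r ∈ L := by
      intro r
      fin_cases r
      · exact hp 0
      · exact hp 1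
      · exact hp 2
      · exact hw
    have hq0 : ∀ r, ∀ k ∈ X, q r k = 0 := by
      intro r k hk
      fin_cases r
      · exact hp0 0 k hk
      · exact hp0 1 k hk
      · exact hp0 2 k hk
      · exact hw0 k hk
    refine h.sys.eq_zero (L.sum_mem fun r _ => L.smul_mem _ (hqL r)) T hTc.ge fun k hk => ?_
    rw [Finset.sum_apply]
    simp only [Pi.smul_apply, smul_eq_mul]
    by_cases hkX : k ∈ X
    · exact Finset.sum_eq_zero fun r _ => by rw [hq0 r k hkX, mul_zero]
    · exact hc0 k (Finset.mem_sdiff.2 ⟨hk, hkX⟩)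
  have hpt : ∀ k, c 0 * p 0 k + c 1 * p 1 k + c 2 * p 2 k + c 3 * w k = 0 := by
    intro k
    have := congrFun hzero k
    rw [Finset.sum_apply, Fin.sum_univ_four] at this
    simpa [q] using this
  have hψ : ∀ a, c 0 * ψ a (p 0) + c 1 * ψ a (p 1) + c 2 * ψ a (p 2) = 0 := by
    intro a
    have h1 := hpt (i a)
    have h2 := hpt (j a)
    have h3 := hwi0 a
    have h4 := hwj0 a
    have e1 : c 0 * (p 0 (i a) / w (i a)) + c 1 * (p 1 (i a) / w (i a)) +
        c 2 * (p 2 (i a) / w (i a)) = - c 3 := by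
      field_simp
      linarith
    have e2 : c 0 * (p 0 (j a) / w (j a)) + c 1 * (p 1 (j a) / w (j a)) +
        c 2 * (p 2 (j a) / w (j a)) = - c 3 := by
      field_simp
      linarith
    simp only [ψ]
    linarith
  have r0 := hψ 0
  have r1 := hψ 1
  have r2 := hψ 2
  rw [hψp 0, mul_zero, zero_add] at r0
  rw [hψp 1, mul_zero, add_zero] at r1
  rw [hψp 2, mul_zero, add_zero] at r2
  have n01 := hψn 0 1 (by decide)
  have n02 := hψn 0 2 (by decide)
  have n10 := hψn 1 0 (by decide)
  have n12 := hψn 1 2 (by decide)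
  have n20 := hψn 2 0 (by decide)
  have n21 := hψn 2 1 (by decide)
  -- the coefficients vanish
  have key : ∀ x y α β : ℝ, α < 0 → β < 0 → x * α + y * β = 0 → x * y ≤ 0 ∧ (x = 0 → y = 0) ∧
      (y = 0 → x = 0) := by
    intro x y α β hα hβ hxy
    refine ⟨?_, ?_, ?_⟩
    · by_contra hcon
      push Not at hcon
      rcases lt_or_ge 0 x with hx | hx
      · have hy : 0 < y := by
          by_contra hy
          push Not at hy
          have := mul_nonpos_of_nonneg_of_nonpos hx.le hy
          linarith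
        have := mul_neg_of_pos_of_neg hx hα
        have := mul_neg_of_pos_of_neg hy hβ
        linarith
      · have hx' : x < 0 := lt_of_le_of_ne hx (by rintro rfl; simp at hcon)
        have hy : y < 0 := by
          by_contra hy
          push Not at hy
          have := mul_nonpos_of_nonpos_of_nonneg hx hy
          linarith
        have := mul_pos_of_neg_of_neg hx' hα
        have := mul_pos_of_neg_of_neg hy hβ
        linarith
    · rintro rfl
      rw [zero_mul, zero_add] at hxy
      rcases mul_eq_zero.1 hxy with h | h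
      · exact h
      · exact absurd h hβ.ne
    · rintro rfl
      rw [zero_mul, add_zero] at hxy
      rcases mul_eq_zero.1 hxy with h | h
      · exact h
      · exact absurd h hα.ne
  obtain ⟨a1, a2, a3⟩ := key (c 1) (c 2) _ _ n01 n02 r0
  obtain ⟨b1, b2, b3⟩ := key (c 0) (c 2) _ _ n10 n12 r1
  obtain ⟨d1, d2, d3⟩ := key (c 0) (c 1) _ _ n20 n21 r2
  have hall : c 0 = 0 := by
    by_contra h0
    have h1 : c 1 ≠ 0 := fun hh => h0 (d3 hh)
    have h2 : c 2 ≠ 0 := fun hh => h0 (b3 hh)
    have h3 : 0 < (c 0 * c 1) * (c 1 * c 2) * (c 0 * c 2) := by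
      have : (c 0 * c 1) * (c 1 * c 2) * (c 0 * c 2) = (c 0 * c 1 * c 2) ^ 2 := by ring
      rw [this]
      positivity
    have h4 : 0 ≤ (c 0 * c 1) * (c 1 * c 2) := mul_nonneg_of_nonpos_of_nonpos d1 a1
    have h5 := mul_nonpos_of_nonneg_of_nonpos h4 b1
    linarith
  have h1 := d2 hall
  have h2 := b2 hall
  have h3 : c 3 = 0 := by
    have := hpt (i 0)
    rw [hall, h1, h2] at this
    simp only [zero_mul, zero_add] at this
    rcases mul_eq_zero.1 this with h | h
    · exact h
    · exact absurd h (hwi0 0)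
  apply hcne
  funext r
  fin_cases r
  · exact hall
  · exact h1
  · exact h2
  · exact h3

end Pool.Agent.MP_e211d6_h89
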