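import Pool.Agent.Lib_MP_e211d6_h89.Core

/-!
# The stages of the construction
-/

namespace Pool.Agent.MP_e211d6_h89

open Finset

variable {E : Type*} [Fintype E] [DecidableEq E]

/-- dual basis with positive values outside `S`: the positive orthant of `S` is a simplicial cell -/
structure Pos (V : Submodule ℝ (E → ℝ)) (s : ℕ) (S : Finset E) (u : E → E → ℝ) : Prop where
  sys : Sys V s
  card : S.card = s
  mem : ∀ m ∈ S, u m ∈ V
  one : ∀ m ∈ S, u m m = 1
  zero : ∀ m ∈ S, ∀ m' ∈ S, m' ≠ m → u m m' = 0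
  pos : ∀ m ∈ S, ∀ k ∉ S, 0 < u m k

theorem Pos.expand {V : Submodule ℝ (E → ℝ)} {s : ℕ} {S : Finset E} {u : E → E → ℝ}
    (h : Pos V s S u) {v : E → ℝ} (hv : v ∈ V) (k : E) : v k = ∑ m ∈ S, v m * u m k := by
  have hmem : v - ∑ m ∈ S, v m • u m ∈ V :=
    V.sub_mem hv (V.sum_mem fun m hm => V.smul_mem _ (h.mem m hm))
  have hz : v - ∑ m ∈ S, v m • u m = 0 := by
    refine h.sys.eq_zero hmem S h.card.ge fun j hj => ?_
    simp only [Pi.sub_apply, Finset.sum_apply, Pi.smul_apply, smul_eq_mul]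
    rw [Finset.sum_eq_single_of_mem j hj fun m hm hmj => by rw [h.zero m hm j hj hmj.symm, mul_zero],
      h.one j hj]
    ring
  have := congrFun hz k
  simp only [Pi.sub_apply, Finset.sum_apply, Pi.smul_apply, smul_eq_mul, Pi.zero_apply] at this
  linarith

theorem Pos.exists_pos {V : Submodule ℝ (E → ℝ)} {s : ℕ} {S : Finset E} {u : E → E → ℝ}
    (h : Pos V s S u) {v : E → ℝ} (hv : v ∈ V) (hne : v ≠ 0) {k : E} (hk : k ∉ S) (hvk : 0 ≤ v k) :
    ∃ m ∈ S, 0 < v m := by
  by_contra hcon
  push Not at hcon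
  apply hne
  refine h.sys.eq_zero hv S h.card.ge fun j hj => ?_
  have h1 := h.expand hv k
  have h2 : ∀ m ∈ S, v m * u m k ≤ 0 := fun m hm =>
    mul_nonpos_of_nonpos_of_nonneg (hcon m hm) (h.pos m hm k hk).le
  have h3 : ∑ m ∈ S, v m * u m k = 0 := le_antisymm (Finset.sum_nonpos h2) (h1 ▸ hvk)
  have h4 := (Finset.sum_eq_zero_iff_of_nonpos h2).1 h3 j hj
  rcases mul_eq_zero.1 h4 with h5 | h5
  · exact h5
  · exact absurd h5 (h.pos j hj k hk).ne'

/-- the vertex `z` of the cell of `E \ S` around the simplex, with only one positive coordinate `l`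
in `S`, and with zero set `J` -/
structure Fix (V : Submodule ℝ (E → ℝ)) (s : ℕ) (S : Finset E) (u : E → E → ℝ) (z : E → ℝ) (l : E)
    (J : Finset E) : Prop where
  pos : Pos V s S u
  three : 3 ≤ s
  lS : l ∈ S
  zV : z ∈ V
  zl : 0 < z l
  zm : ∀ m ∈ S, m ≠ l → z m < 0
  JS : ∀ j ∈ J, j ∉ S
  Jc : J.card + 1 = s
  zJ : ∀ j ∈ J, z j = 0
  zT : ∀ k, k ∉ S → k ∉ J → 0 < z k

/-- the state of the construction: `R` is the set of remaining elements -/
structure Stage (V : Submodule ℝ (E → ℝ)) (s : ℕ) (S : Finset E) (u : E → E → ℝ) (z : E → ℝ) (l : E)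
    (J R : Finset E) (e0 : E) : Prop where
  fix : Fix V s S u z l J
  RS : ∀ k ∈ R, k ∉ S ∧ k ∉ J
  H : ∀ v, Vert V s (J ∪ R) v → (∃ k ∈ R, v k = 0) →
    v l < 0 ∧ ∀ k, k ∉ S → k ∉ J → k ∉ R → v k < 0
  e0J : e0 ∉ J
  e0R : e0 ∉ R
  e0S : e0 ∉ S.erase l
  G : ∀ i ∈ S, i ≠ l → ∃ p ∈ V, 0 < p i ∧ (∀ m ∈ S, m ≠ i → m ≠ l → p m = 0) ∧ p l ≤ 0 ∧
    p e0 = 0 ∧ (∀ k, k ∉ S → k ∉ J → k ∉ R → p k ≤ 0) ∧ ∀ k ∈ J ∪ R, 0 ≤ p k

variable {V : Submodule ℝ (E → ℝ)} {s : ℕ} {S : Finset E} {u : E → E → ℝ} {z : E → ℝ} {l : E}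
  {J R : Finset E} {e0 : E}

theorem Stage.wit (h : Stage V s S u z l J R e0) {A : Finset E} {i : E} (hiS : i ∈ S) (hil : i ≠ l)
    (hiA : i ∈ A) (hlA : l ∉ A) (hJR : J ∪ R ⊆ A) (hK : ∀ k, k ∉ S → k ∉ J → k ∉ R → k ∉ A)
    {e : E} (he : e = e0 ∨ (e ∈ S ∧ e ≠ i ∧ e ≠ l)) : Wit V A e := by
  obtain ⟨p, hpV, hpi, hpm, hpl, hpe, hpK, hpA⟩ := h.G i hiS hil
  refine ⟨p, hpV, fun h0 => ?_, ?_, fun k hk => ?_, fun k hk => ?_⟩
  · rw [h0] at hpi
    simp at hpi
  · rcases he with rfl | ⟨he1, he2, he3⟩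
    · exact hpe
    · exact hpm e he1 he2 he3
  · by_cases hkS : k ∈ S
    · by_cases hki : k = i
      · rw [hki]; exact hpi.le
      · by_cases hkl : k = l
        · exact absurd (hkl ▸ hk) hlA
        · exact (hpm k hkS hki hkl).ge
    · by_cases hkJR : k ∈ J ∪ R
      · exact hpA k hkJR
      · rw [Finset.mem_union, not_or] at hkJR
        exact absurd hk (hK k hkS hkJR.1 hkJR.2)
  · by_cases hkS : k ∈ S
    · by_cases hki : k = i
      · exact absurd (hki ▸ hiA) hk
      · by_cases hkl : k = l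
        · rw [hkl]; exact hpl
        · exact (hpm k hkS hki hkl).le
    · have hkJR : k ∉ J ∪ R := fun hh => hk (hJR hh)
      rw [Finset.mem_union, not_or] at hkJR
      exact hpK k hkS hkJR.1 hkJR.2

theorem Stage.not_mem_S (h : Stage V s S u z l J R e0) {k : E} (hk : k ∈ J ∪ R) : k ∉ S := by
  rcases Finset.mem_union.1 hk with hk | hk
  · exact h.fix.JS k hk
  · exact (h.RS k hk).1

/-- a vertex with two positive coordinates in `S` -/
theorem Stage.alpha (h : Stage V s S u z l J R e0) {v : E → ℝ} (hv : Vert V s (J ∪ R) v)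
    (hvR : ∃ k ∈ R, v k = 0) {i i' : E} (hi : i ∈ S) (hi' : i' ∈ S) (hii : i ≠ i') (hvi : 0 < v i)
    (hvi' : 0 < v i') : Good V s := by
  obtain ⟨hvl, hvK⟩ := h.H v hv hvR
  have hil : i ≠ l := by rintro rfl; linarith
  have hil' : i' ≠ l := by rintro rfl; linarith
  set A := (S.filter fun k => 0 < v k) ∪ (J ∪ R) with hA
  have hlJR : l ∉ J ∪ R := fun hh => h.not_mem_S hh h.fix.lS
  have hlA : l ∉ A := by
    rw [hA, Finset.mem_union, not_or]
    refine ⟨fun hh => ?_, hlJR⟩
    have := (Finset.mem_filter.1 hh).2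
    linarith
  have hKA : ∀ k, k ∉ S → k ∉ J → k ∉ R → k ∉ A := by
    intro k h1 h2 h3
    rw [hA, Finset.mem_union, Finset.mem_union, Finset.mem_filter]
    tauto
  have hJRA : J ∪ R ⊆ A := Finset.subset_union_right
  have hmemA : ∀ k ∈ S, 0 < v k → k ∈ A := fun k hk hk' =>
    Finset.mem_union_left _ (Finset.mem_filter.2 ⟨hk, hk'⟩)
  refine ⟨A, ((J ∪ R).filter fun k => v k = 0) ∪ insert e0 (S.erase l), ?_, ?_⟩
  · have h1 : Disjoint ((J ∪ R).filter fun k => v k = 0) (insert e0 (S.erase l)) := by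
      rw [Finset.disjoint_left]
      intro k hk hk'
      have hkJR := (Finset.mem_filter.1 hk).1
      rcases Finset.mem_insert.1 hk' with rfl | hk'
      · rcases Finset.mem_union.1 hkJR with hh | hh
        · exact h.e0J hh
        · exact h.e0R hh
      · exact h.not_mem_S hkJR (Finset.mem_of_mem_erase hk')
    rw [Finset.card_union_of_disjoint h1, Finset.card_insert_of_notMem h.e0S,
      Finset.card_erase_of_mem h.fix.lS, h.fix.pos.card]
    have := hv.card
    have := h.fix.three
    omega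
  · intro e he
    rcases Finset.mem_union.1 he with he | he
    · refine ⟨v, hv.mem, hv.ne, (Finset.mem_filter.1 he).2, fun k hk => ?_, fun k hk => ?_⟩
      · rcases Finset.mem_union.1 hk with hk | hk
        · exact (Finset.mem_filter.1 hk).2.le
        · exact hv.nonneg k hk
      · by_cases hkS : k ∈ S
        · by_contra hcon
          exact hk (hmemA k hkS (not_le.1 hcon))
        · have hkJR : k ∉ J ∪ R := fun hh => hk (hJRA hh)
          rw [Finset.mem_union, not_or] at hkJR
          exact (hvK k hkS hkJR.1 hkJR.2).le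
    · by_cases hei : e = i
      · refine h.wit hi' hil' (hmemA i' hi' hvi') hlA hJRA hKA (Or.inr ⟨?_, ?_, ?_⟩)
        · rw [hei]; exact hi
        · rw [hei]; exact hii
        · rw [hei]; exact hil
      · refine h.wit hi hil (hmemA i hi hvi) hlA hJRA hKA ?_
        rcases Finset.mem_insert.1 he with he | he
        · exact Or.inl he
        · exact Or.inr ⟨Finset.mem_of_mem_erase he, hei, Finset.ne_of_mem_erase he⟩

/-- two different vertices with the same positive coordinate in `S` -/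
theorem Stage.beta (h : Stage V s S u z l J R e0) {v w : E → ℝ} (hv : Vert V s (J ∪ R) v)
    (hvR : ∃ k ∈ R, v k = 0) (hw : Vert V s (J ∪ R) w) (hwR : ∃ k ∈ R, w k = 0) {i : E} (hi : i ∈ S)
    (hvi : 0 < v i) (hwi : 0 < w i) (hvm : ∀ m ∈ S, m ≠ i → v m ≤ 0) (hwm : ∀ m ∈ S, m ≠ i → w m ≤ 0)
    {q : E} (hq : q ∈ J ∪ R) (hvq : v q = 0) (hwq : w q ≠ 0) : Good V s := by
  obtain ⟨hvl, hvK⟩ := h.H v hv hvR
  obtain ⟨hwl, hwK⟩ := h.H w hw hwR
  have hil : i ≠ l := by rintro rfl; linarith
  set A := insert i (J ∪ R) with hA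
  have hlJR : l ∉ J ∪ R := fun hh => h.not_mem_S hh h.fix.lS
  have hlA : l ∉ A := by
    rw [hA, Finset.mem_insert, not_or]
    exact ⟨hil.symm, hlJR⟩
  have hKA : ∀ k, k ∉ S → k ∉ J → k ∉ R → k ∉ A := by
    intro k h1 h2 h3
    rw [hA, Finset.mem_insert, Finset.mem_union]
    rintro (rfl | hh | hh)
    · exact h1 hi
    · exact h2 hh
    · exact h3 hh
  have hJRA : J ∪ R ⊆ A := Finset.subset_insert _ _
  have key : ∀ v : E → ℝ, Vert V s (J ∪ R) v → 0 < v i → (∀ m ∈ S, m ≠ i → v m ≤ 0) →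
      (∀ k, k ∉ S → k ∉ J → k ∉ R → v k < 0) → ∀ e ∈ ((J ∪ R).filter fun k => v k = 0),
      Wit V A e := by
    intro v hv hvi hvm hvK e he
    refine ⟨v, hv.mem, hv.ne, (Finset.mem_filter.1 he).2, fun k hk => ?_, fun k hk => ?_⟩
    · rcases Finset.mem_insert.1 hk with rfl | hk
      · exact hvi.le
      · exact hv.nonneg k hk
    · have hki : k ≠ i := by rintro rfl; exact hk (Finset.mem_insert_self _ _)
      by_cases hkS : k ∈ S
      · exact hvm k hkS hki
      · have hkJR : k ∉ J ∪ R := fun hh => hk (hJRA hh)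
        rw [Finset.mem_union, not_or] at hkJR
        exact (hvK k hkS hkJR.1 hkJR.2).le
  refine ⟨A, (((J ∪ R).filter fun k => v k = 0) ∪ ((J ∪ R).filter fun k => w k = 0)) ∪
    insert e0 ((S.erase l).erase i), ?_, ?_⟩
  · have h1 : Disjoint (((J ∪ R).filter fun k => v k = 0) ∪ ((J ∪ R).filter fun k => w k = 0))
        (insert e0 ((S.erase l).erase i)) := by
      rw [Finset.disjoint_left]
      intro k hk hk'
      have hkJR : k ∈ J ∪ R := by
        rcases Finset.mem_union.1 hk with hk | hk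
        · exact (Finset.mem_filter.1 hk).1
        · exact (Finset.mem_filter.1 hk).1
      rcases Finset.mem_insert.1 hk' with rfl | hk'
      · rcases Finset.mem_union.1 hkJR with hh | hh
        · exact h.e0J hh
        · exact h.e0R hh
      · exact h.not_mem_S hkJR (Finset.mem_of_mem_erase (Finset.mem_of_mem_erase hk'))
    have h2 : insert q ((J ∪ R).filter fun k => w k = 0) ⊆
        ((J ∪ R).filter fun k => v k = 0) ∪ ((J ∪ R).filter fun k => w k = 0) := by
      intro k hk
      rcases Finset.mem_insert.1 hk with rfl | hk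
      · exact Finset.mem_union_left _ (Finset.mem_filter.2 ⟨hq, hvq⟩)
      · exact Finset.mem_union_right _ hk
    have h3 := Finset.card_le_card h2
    have h5 : q ∉ (J ∪ R).filter fun k => w k = 0 := fun hh => hwq (Finset.mem_filter.1 hh).2
    rw [Finset.card_insert_of_notMem h5] at h3
    have h4 : e0 ∉ (S.erase l).erase i := fun hh => h.e0S (Finset.mem_of_mem_erase hh)
    have hi' : i ∈ S.erase l := Finset.mem_erase.2 ⟨hil, hi⟩
    rw [Finset.card_union_of_disjoint h1, Finset.card_insert_of_notMem h4,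
      Finset.card_erase_of_mem hi', Finset.card_erase_of_mem h.fix.lS, h.fix.pos.card]
    have := hw.card
    have := h.fix.three
    omega
  · intro e he
    rcases Finset.mem_union.1 he with he | he
    · rcases Finset.mem_union.1 he with he | he
      · exact key v hv hvi hvm hvK e he
      · exact key w hw hwi hwm hwK e he
    · refine h.wit hi hil (Finset.mem_insert_self _ _) hlA hJRA hKA ?_
      rcases Finset.mem_insert.1 he with he | he
      · exact Or.inl he
      · obtain ⟨h1, h2⟩ := Finset.mem_erase.1 he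
        obtain ⟨h3, h4⟩ := Finset.mem_erase.1 h2
        exact Or.inr ⟨h4, h1, h3⟩

/-- no elements remain -/
theorem Stage.final (h : Stage V s S u z l J ∅ e0) : Good V s := by
  have hf := h.fix
  set A := (S.erase l) ∪ J with hA
  have hlJ : l ∉ J := fun hh => hf.JS l hh hf.lS
  have hlA : l ∉ A := by
    rw [hA, Finset.mem_union, not_or]
    exact ⟨fun hh => (Finset.mem_erase.1 hh).1 rfl, hlJ⟩
  have hKA : ∀ k, k ∉ S → k ∉ J → k ∉ (∅ : Finset E) → k ∉ A := by
    intro k h1 h2 _
    rw [hA, Finset.mem_union, Finset.mem_erase]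
    tauto
  have hJRA : J ∪ ∅ ⊆ A := by
    rw [Finset.union_empty]
    exact Finset.subset_union_right
  refine ⟨A, J ∪ insert e0 (S.erase l), ?_, ?_⟩
  · have h1 : Disjoint J (insert e0 (S.erase l)) := by
      rw [Finset.disjoint_left]
      intro k hk hk'
      rcases Finset.mem_insert.1 hk' with rfl | hk'
      · exact h.e0J hk
      · exact hf.JS k hk (Finset.mem_of_mem_erase hk')
    rw [Finset.card_union_of_disjoint h1, Finset.card_insert_of_notMem h.e0S,
      Finset.card_erase_of_mem hf.lS, hf.pos.card]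
    have := hf.Jc
    have := hf.three
    omega
  · intro e he
    rcases Finset.mem_union.1 he with he | he
    · refine ⟨-z, V.neg_mem hf.zV, ?_, ?_, fun k hk => ?_, fun k hk => ?_⟩
      · intro h0
        have := congrFun h0 l
        have := hf.zl
        simp only [Pi.neg_apply, Pi.zero_apply] at *
        linarith
      · simp [hf.zJ e he]
      · rcases Finset.mem_union.1 hk with hk | hk
        · have := hf.zm k (Finset.mem_of_mem_erase hk) (Finset.ne_of_mem_erase hk)
          simp only [Pi.neg_apply]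
          linarith
        · simp [hf.zJ k hk]
      · simp only [Pi.neg_apply]
        by_cases hkl : k = l
        · have := hf.zl
          rw [hkl]
          linarith
        · have h1 : k ∉ S := fun hh => hk (Finset.mem_union_left _ (Finset.mem_erase.2 ⟨hkl, hh⟩))
          have h2 : k ∉ J := fun hh => hk (Finset.mem_union_right _ hh)
          have := hf.zT k h1 h2
          linarith
    · -- choose `i ≠ e` in `S.erase l`
      have hcard : 1 < (S.erase l).card := by
        rw [Finset.card_erase_of_mem hf.lS, hf.pos.card]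
        have := hf.three
        omega
      obtain ⟨i, hi, hie⟩ : ∃ i ∈ S.erase l, i ≠ e := Finset.exists_mem_ne hcard e
      refine h.wit (Finset.mem_of_mem_erase hi) (Finset.ne_of_mem_erase hi)
        (Finset.mem_union_left _ hi) hlA hJRA hKA ?_
      rcases Finset.mem_insert.1 he with he | he
      · exact Or.inl he
      · exact Or.inr ⟨Finset.mem_of_mem_erase he, hie.symm, Finset.ne_of_mem_erase he⟩

end Pool.Agent.MP_e211d6_h89
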