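import Pool.Agent.Lib_MP_e211d6_h89.Stage

/-!
# One step of the construction
-/

namespace Pool.Agent.MP_e211d6_h89

open Finset

variable {E : Type*} [Fintype E] [DecidableEq E]
variable {V : Submodule ℝ (E → ℝ)} {s : ℕ} {S : Finset E} {u : E → E → ℝ} {z : E → ℝ} {l : E}
  {J R : Finset E} {e0 : E}

theorem Stage.vert_z (h : Stage V s S u z l J R e0) : Vert V s (J ∪ R) z := by
  have hf := h.fix
  refine ⟨hf.zV, ?_, fun k hk => ?_, ?_⟩
  · intro h0
    have := hf.zl
    rw [h0] at this
    simp at this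
  · rcases Finset.mem_union.1 hk with hk | hk
    · exact (hf.zJ k hk).ge
    · exact (hf.zT k (h.RS k hk).1 (h.RS k hk).2).le
  · have : (J ∪ R).filter (fun k => z k = 0) = J := by
      ext k
      rw [Finset.mem_filter, Finset.mem_union]
      constructor
      · rintro ⟨hk | hk, h0⟩
        · exact hk
        · exact absurd h0 (hf.zT k (h.RS k hk).1 (h.RS k hk).2).ne'
      · exact fun hk => ⟨Or.inl hk, hf.zJ k hk⟩
    rw [this, hf.Jc]

theorem Stage.color (h : Stage V s S u z l J R e0) (hng : ¬ Good V s) {v : E → ℝ}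
    (hv : Vert V s (J ∪ R) v) (hvR : ∃ k ∈ R, v k = 0) :
    ∃ i ∈ S, i ≠ l ∧ 0 < v i ∧ ∀ m ∈ S, m ≠ i → v m < 0 := by
  obtain ⟨hvl, -⟩ := h.H v hv hvR
  obtain ⟨k, hkR, hk0⟩ := hvR
  obtain ⟨i, hi, hvi⟩ := h.fix.pos.exists_pos hv.mem hv.ne (h.RS k hkR).1 hk0.ge
  refine ⟨i, hi, by rintro rfl; linarith, hvi, fun m hm hmi => ?_⟩
  have h1 : ¬ 0 < v m := fun hvm => hng (h.alpha hv ⟨k, hkR, hk0⟩ hi hm hmi.symm hvi hvm)
  have h2 : v m ≠ 0 := hv.ne_zero h.fix.pos.sys fun hh =>
    h.not_mem_S (Finset.mem_filter.1 hh).1 hm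
  exact lt_of_le_of_ne (not_lt.1 h1) h2

theorem Stage.same (h : Stage V s S u z l J R e0) (hng : ¬ Good V s) {v w : E → ℝ}
    (hv : Vert V s (J ∪ R) v) (hvR : ∃ k ∈ R, v k = 0) (hw : Vert V s (J ∪ R) w)
    (hwR : ∃ k ∈ R, w k = 0) {i : E} (hi : i ∈ S)
    (hvi : 0 < v i) (hwi : 0 < w i) {q : E} (hq : q ∈ J ∪ R) (hvq : v q = 0) : w q = 0 := by
  obtain ⟨i', hi', -, hvi', hvm⟩ := h.color hng hv hvR
  obtain ⟨i'', hi'', -, hwi'', hwm⟩ := h.color hng hw hwR
  have e1 : i' = i := by
    by_contra hne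
    have := hvm i hi (Ne.symm hne)
    linarith
  have e2 : i'' = i := by
    by_contra hne
    have := hwm i hi (Ne.symm hne)
    linarith
  subst e1
  subst e2
  by_contra hwq
  exact hng (h.beta hv hvR hw hwR hi hvi hwi (fun m hm hmi => (hvm m hm hmi).le)
    (fun m hm hmi => (hwm m hm hmi).le) hq hvq hwq)

theorem Stage.step (h : Stage V s S u z l J R e0) (hR : R.Nonempty) (hng : ¬ Good V s) :
    ∃ κ ∈ R, Stage V s S u z l J (R.erase κ) κ := by
  have hf := h.fix
  have hsys := hf.pos.sys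
  have hzv := h.vert_z
  have hJR : Disjoint J R := by
    rw [Finset.disjoint_left]
    intro k hk hk'
    exact (h.RS k hk').2 hk
  have hAc : s ≤ (J ∪ R).card := by
    rw [Finset.card_union_of_disjoint hJR]
    have := hf.Jc
    have := Finset.card_pos.2 hR
    omega
  -- the neighbours of `z`
  have hnb : ∀ j ∈ J, ∃ (w : E → ℝ) (c q : E), Vert V s (J ∪ R) w ∧ 0 < w j ∧
      (∀ k ∈ J, k ≠ j → w k = 0) ∧ q ∈ R ∧ w q = 0 ∧ c ∈ S ∧ c ≠ l ∧ 0 < w c ∧
      ∀ m ∈ S, m ≠ c → w m < 0 := by
    intro j hj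
    have hjf : j ∈ (J ∪ R).filter fun k => z k = 0 :=
      Finset.mem_filter.2 ⟨Finset.mem_union_left _ hj, hf.zJ j hj⟩
    obtain ⟨w, hw, hwj, hwJ, q, hqA, hzq, hwq⟩ := hzv.neighbour hsys hAc hjf
    have hqR : q ∈ R := by
      rcases Finset.mem_union.1 hqA with hq | hq
      · exact absurd (hf.zJ q hq) hzq
      · exact hq
    obtain ⟨c, hc, hcl, hwc, hwm⟩ := h.color hng hw ⟨q, hqR, hwq⟩
    exact ⟨w, c, q, hw, hwj, fun k hk hkj => hwJ k (Finset.mem_filter.2
      ⟨Finset.mem_union_left _ hk, hf.zJ k hk⟩) hkj, hqR, hwq, hc, hcl, hwc, hwm⟩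
  choose! w c q hwv hwj hwJ hqR hwq hcS hcl hwc hwm using hnb
  have hwR : ∀ j ∈ J, ∃ k ∈ R, w j k = 0 := fun j hj => ⟨q j, hqR j hj, hwq j hj⟩
  -- colours are different
  have hcinj : Set.InjOn c J := by
    intro j hj j' hj' hcc
    by_contra hne
    have h1 : w j' j = 0 := hwJ j' hj' j hj hne
    have h2 : 0 < w j (c j') := hcc ▸ hwc j hj
    have := h.same hng (hwv j' hj') (hwR j' hj') (hwv j hj) (hwR j hj) (hcS j' hj') (hwc j' hj')
      h2 (Finset.mem_union_left _ hj) h1
    have := hwj j hj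
    linarith
  have hcsurj : ∀ m ∈ S, m ≠ l → ∃ j ∈ J, c j = m := by
    have h1 : J.image c ⊆ S.erase l := by
      intro m hm
      obtain ⟨j, hj, rfl⟩ := Finset.mem_image.1 hm
      exact Finset.mem_erase.2 ⟨hcl j hj, hcS j hj⟩
    have h2 : J.image c = S.erase l := by
      refine Finset.eq_of_subset_of_card_le h1 ?_
      rw [Finset.card_image_of_injOn hcinj, Finset.card_erase_of_mem hf.lS, hf.pos.card]
      have := hf.Jc
      omega
    intro m hm hml
    have h3 : m ∈ J.image c := h2 ▸ Finset.mem_erase.2 ⟨hml, hm⟩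
    exact Finset.mem_image.1 h3
  -- the new tight elements are all the same
  have hq : ∀ j ∈ J, ∀ j' ∈ J, q j = q j' := by
    intro j hj j' hj'
    by_contra hne
    have hjj : j ≠ j' := by rintro rfl; exact hne rfl
    have hj'f : j' ∈ (J ∪ R).filter fun k => w j k = 0 :=
      Finset.mem_filter.2 ⟨Finset.mem_union_left _ hj', hwJ j hj j' hj' hjj.symm⟩
    obtain ⟨v, hv, hvj, hvJ, -⟩ := (hwv j hj).neighbour hsys hAc hj'f
    have hqj : q j ≠ j' := by
      rintro hh
      exact (h.RS _ (hqR j hj)).2 (hh ▸ hj')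
    have hvq : v (q j) = 0 := hvJ (q j) (Finset.mem_filter.2
      ⟨Finset.mem_union_right _ (hqR j hj), hwq j hj⟩) hqj
    have hvR : ∃ k ∈ R, v k = 0 := ⟨q j, hqR j hj, hvq⟩
    obtain ⟨m, hm, hml, hvm, -⟩ := h.color hng hv hvR
    obtain ⟨j'', hj'', rfl⟩ := hcsurj m hm hml
    have hj2 : j'' = j' := by
      by_contra hcon
      have h1 : w j'' j' = 0 := hwJ j'' hj'' j' hj' (Ne.symm hcon)
      have := h.same hng (hwv j'' hj'') (hwR j'' hj'') hv hvR (hcS j'' hj'') (hwc j'' hj'') hvm
        (Finset.mem_union_left _ hj') h1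
      linarith
    subst hj2
    have h1 : w j'' (q j) = 0 := h.same hng hv hvR (hwv j'' hj'') (hwR j'' hj'') hm hvm
      (hwc j'' hj'') (Finset.mem_union_right _ (hqR j hj)) hvq
    have h2 := hsys.unif (w j'') (hwv j'' hj'').mem (hwv j'' hj'').ne
      (insert (q j) (insert (q j'') (J.erase j''))) (by
        intro k hk
        rcases Finset.mem_insert.1 hk with rfl | hk
        · exact h1
        · rcases Finset.mem_insert.1 hk with rfl | hk
          · exact hwq j'' hj''
          · exact hwJ j'' hj'' k (Finset.mem_of_mem_erase hk) (Finset.ne_of_mem_erase hk))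
    have h3 : q j'' ∉ J.erase j'' := fun hh =>
      (h.RS _ (hqR j'' hj'')).2 (Finset.mem_of_mem_erase hh)
    have h4 : q j ∉ insert (q j'') (J.erase j'') := by
      rw [Finset.mem_insert, not_or]
      exact ⟨hne, fun hh => (h.RS _ (hqR j hj)).2 (Finset.mem_of_mem_erase hh)⟩
    rw [Finset.card_insert_of_notMem h4, Finset.card_insert_of_notMem h3,
      Finset.card_erase_of_mem hj''] at h2
    have := hf.Jc
    have := Finset.card_pos.2 ⟨j'', hj''⟩
    omega
  have hJne : J.Nonempty := by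
    rw [← Finset.card_pos]
    have := hf.Jc
    have := hf.three
    omega
  obtain ⟨j0, hj0⟩ := hJne
  set κ := q j0 with hκ
  have hκR : κ ∈ R := hqR j0 hj0
  have hκS : κ ∉ S := (h.RS κ hκR).1
  have hκJ : κ ∉ J := (h.RS κ hκR).2
  have hwκ : ∀ j ∈ J, w j κ = 0 := by
    intro j hj
    rw [hκ, hq j0 hj0 j hj]
    exact hwq j hj
  have hzκ : 0 < z κ := hf.zT κ hκS hκJ
  have hwne : ∀ j ∈ J, ∀ k, k ∉ J → k ≠ κ → w j k ≠ 0 := by
    intro j hj k hk hkκ h0
    have h2 := hsys.unif (w j) (hwv j hj).mem (hwv j hj).ne (insert k (insert κ (J.erase j))) (by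
        intro k' hk'
        rcases Finset.mem_insert.1 hk' with rfl | hk'
        · exact h0
        · rcases Finset.mem_insert.1 hk' with rfl | hk'
          · exact hwκ j hj
          · exact hwJ j hj k' (Finset.mem_of_mem_erase hk') (Finset.ne_of_mem_erase hk'))
    have h3 : κ ∉ J.erase j := fun hh => hκJ (Finset.mem_of_mem_erase hh)
    have h4 : k ∉ insert κ (J.erase j) := by
      rw [Finset.mem_insert, not_or]
      exact ⟨hkκ, fun hh => hk (Finset.mem_of_mem_erase hh)⟩
    rw [Finset.card_insert_of_notMem h4, Finset.card_insert_of_notMem h3,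
      Finset.card_erase_of_mem hj] at h2
    have := hf.Jc
    have := Finset.card_pos.2 ⟨j, hj⟩
    omega
  have hwpos : ∀ j ∈ J, ∀ k ∈ R, k ≠ κ → 0 < w j k := fun j hj k hk hkκ =>
    lt_of_le_of_ne ((hwv j hj).nonneg k (Finset.mem_union_right _ hk))
      (Ne.symm (hwne j hj k (h.RS k hk).2 hkκ))
  have hwl : ∀ j ∈ J, w j l < 0 := fun j hj => hwm j hj l hf.lS (hcl j hj).symm
  have hwK : ∀ j ∈ J, ∀ k, k ∉ S → k ∉ J → k ∉ R → w j k < 0 := fun j hj =>
    (h.H (w j) (hwv j hj) (hwR j hj)).2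
  have hcardB : (insert κ J).card = s := by
    rw [Finset.card_insert_of_notMem hκJ, hf.Jc]
  have hzero : ∀ v ∈ V, v κ = 0 → (∀ j ∈ J, v j = 0) → v = 0 := by
    intro v hv h1 h2
    refine hsys.eq_zero hv (insert κ J) hcardB.ge fun k hk => ?_
    rcases Finset.mem_insert.1 hk with rfl | hk
    · exact h1
    · exact h2 k hk
  -- expansion in the basis `z, w j`
  have hexp : ∀ v ∈ V, ∀ k, v k = v κ / z κ * z k + ∑ j ∈ J, v j / w j j * w j k := by
    intro v hv k
    have hmem : v - ((v κ / z κ) • z + ∑ j ∈ J, (v j / w j j) • w j) ∈ V :=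
      V.sub_mem hv (V.add_mem (V.smul_mem _ hf.zV)
        (V.sum_mem fun j hj => V.smul_mem _ (hwv j hj).mem))
    have h0 := hzero _ hmem (by
      simp only [Pi.sub_apply, Pi.add_apply, Finset.sum_apply, Pi.smul_apply, smul_eq_mul]
      rw [Finset.sum_eq_zero fun j hj => by rw [hwκ j hj, mul_zero]]
      field_simp
      ring) (by
      intro j hj
      simp only [Pi.sub_apply, Pi.add_apply, Finset.sum_apply, Pi.smul_apply, smul_eq_mul]
      rw [hf.zJ j hj, Finset.sum_eq_single_of_mem j hj fun j' hj' hne => by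
        rw [hwJ j' hj' j hj hne.symm, mul_zero]]
      have := (hwj j hj).ne'
      field_simp
      ring)
    have := congrFun h0 k
    simp only [Pi.sub_apply, Pi.add_apply, Finset.sum_apply, Pi.smul_apply, smul_eq_mul,
      Pi.zero_apply] at this
    linarith
  refine ⟨κ, hκR, hf, ?_, ?_, hκJ, ?_, ?_, ?_⟩
  · exact fun k hk => h.RS k (Finset.mem_of_mem_erase hk)
  · -- `(H)`
    rintro v hv ⟨k0, hk0, hvk0⟩
    obtain ⟨hk0κ, hk0R⟩ := Finset.mem_erase.1 hk0
    have hβ : ∀ j ∈ J, 0 ≤ v j / w j j := fun j hj =>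
      div_nonneg (hv.nonneg j (Finset.mem_union_left _ hj)) (hwj j hj).le
    have hα : v κ / z κ < 0 := by
      by_contra hcon
      push Not at hcon
      have h1 := hexp v hv.mem k0
      have hzk0 : 0 < z k0 := hf.zT k0 (h.RS k0 hk0R).1 (h.RS k0 hk0R).2
      have h2 : ∀ j ∈ J, 0 ≤ v j / w j j * w j k0 := fun j hj =>
        mul_nonneg (hβ j hj) (hwpos j hj k0 hk0R hk0κ).le
      have h3 : 0 ≤ v κ / z κ * z k0 := mul_nonneg hcon hzk0.le
      have h4 := Finset.sum_nonneg h2
      rw [hvk0] at h1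
      have h5 : v κ / z κ * z k0 = 0 := by linarith
      have h6 : ∑ j ∈ J, v j / w j j * w j k0 = 0 := by linarith
      have h7 := (Finset.sum_eq_zero_iff_of_nonneg h2).1 h6
      refine hv.ne (hzero v hv.mem ?_ ?_)
      · rcases mul_eq_zero.1 h5 with h8 | h8
        · rcases div_eq_zero_iff.1 h8 with h9 | h9
          · exact h9
          · exact absurd h9 hzκ.ne'
        · exact absurd h8 hzk0.ne'
      · intro j hj
        rcases mul_eq_zero.1 (h7 j hj) with h8 | h8
        · rcases div_eq_zero_iff.1 h8 with h9 | h9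
          · exact h9
          · exact absurd h9 (hwj j hj).ne'
        · exact absurd h8 (hwpos j hj k0 hk0R hk0κ).ne'
    refine ⟨?_, fun k hkS hkJ hkR => ?_⟩
    · rw [hexp v hv.mem l]
      have h1 : v κ / z κ * z l < 0 := mul_neg_of_neg_of_pos hα hf.zl
      have h2 : ∑ j ∈ J, v j / w j j * w j l ≤ 0 := Finset.sum_nonpos fun j hj =>
        mul_nonpos_of_nonneg_of_nonpos (hβ j hj) (hwl j hj).le
      linarith
    · by_cases hkκ : k = κ
      · rw [hkκ]
        by_contra hcon
        push Not at hcon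
        have := div_nonneg hcon hzκ.le
        linarith
      · have hkR' : k ∉ R := fun hh => hkR (Finset.mem_erase.2 ⟨hkκ, hh⟩)
        rw [hexp v hv.mem k]
        have h1 : v κ / z κ * z k < 0 := mul_neg_of_neg_of_pos hα (hf.zT k hkS hkJ)
        have h2 : ∑ j ∈ J, v j / w j j * w j k ≤ 0 := Finset.sum_nonpos fun j hj =>
          mul_nonpos_of_nonneg_of_nonpos (hβ j hj) (hwK j hj k hkS hkJ hkR').le
        linarith
  · exact fun hh => (Finset.mem_erase.1 hh).1 rfl
  · exact fun hh => hκS (Finset.mem_of_mem_erase hh)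
  · -- `(G)`
    intro i hi hil
    have hAne : (J ∪ R).Nonempty := ⟨κ, Finset.mem_union_right _ hκR⟩
    obtain ⟨k1, hk1, hmin⟩ := Finset.exists_min_image (J ∪ R) (fun k => u i k / u l k) hAne
    set θ := u i k1 / u l k1 with hθ
    have hui : ∀ k ∈ J ∪ R, 0 < u i k := fun k hk => hf.pos.pos i hi k (h.not_mem_S hk)
    have hul : ∀ k ∈ J ∪ R, 0 < u l k := fun k hk => hf.pos.pos l hf.lS k (h.not_mem_S hk)
    have hθ0 : 0 < θ := div_pos (hui k1 hk1) (hul k1 hk1)
    set p := u i - θ • u l with hp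
    have hpV : p ∈ V := V.sub_mem (hf.pos.mem i hi) (V.smul_mem _ (hf.pos.mem l hf.lS))
    have hpi : p i = 1 := by
      simp [hp, hf.pos.one i hi, hf.pos.zero l hf.lS i hi hil]
    have hpl : p l = -θ := by
      simp [hp, hf.pos.one l hf.lS, hf.pos.zero i hi l hf.lS hil.symm]
    have hpm : ∀ m ∈ S, m ≠ i → m ≠ l → p m = 0 := by
      intro m hm hmi hml
      simp [hp, hf.pos.zero i hi m hm hmi, hf.pos.zero l hf.lS m hm hml]
    have hpA : ∀ k ∈ J ∪ R, 0 ≤ p k := by
      intro k hk
      have h1 := hmin k hk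
      rw [le_div_iff₀ (hul k hk)] at h1
      simp only [hp, Pi.sub_apply, Pi.smul_apply, smul_eq_mul]
      linarith
    have hpk1 : p k1 = 0 := by
      have := (hul k1 hk1).ne'
      simp only [hp, hθ, Pi.sub_apply, Pi.smul_apply, smul_eq_mul]
      field_simp
      ring
    have hpne : p ≠ 0 := by
      intro h0
      rw [h0] at hpi
      simp at hpi
    have hα : 0 ≤ p κ / z κ := div_nonneg (hpA κ (Finset.mem_union_right _ hκR)) hzκ.le
    have hβ : ∀ j ∈ J, 0 ≤ p j / w j j := fun j hj =>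
      div_nonneg (hpA j (Finset.mem_union_left _ hj)) (hwj j hj).le
    have hα0 : p κ / z κ = 0 → p κ = 0 := by
      intro h8
      rcases div_eq_zero_iff.1 h8 with h9 | h9
      · exact h9
      · exact absurd h9 hzκ.ne'
    have hβ0 : ∀ j ∈ J, p j / w j j = 0 → p j = 0 := by
      intro j hj h8
      rcases div_eq_zero_iff.1 h8 with h9 | h9
      · exact h9
      · exact absurd h9 (hwj j hj).ne'
    have hpκ : p κ = 0 := by
      by_cases hk1κ : k1 = κ
      · rw [← hk1κ]; exact hpk1
      · exfalso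
        rcases Finset.mem_union.1 hk1 with hk1J | hk1R
        · have hmS := hcS k1 hk1J
          have hml := hcl k1 hk1J
          have hpm0 : 0 ≤ p (c k1) := by
            by_cases hmi : c k1 = i
            · rw [hmi, hpi]; exact zero_le_one
            · exact (hpm _ hmS hmi hml).ge
          have h1 := hexp p hpV (c k1)
          have h2 : p κ / z κ * z (c k1) ≤ 0 :=
            mul_nonpos_of_nonneg_of_nonpos hα (hf.zm _ hmS hml).le
          have h3 : ∀ j ∈ J, p j / w j j * w j (c k1) ≤ 0 := by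
            intro j hj
            by_cases hjk : j = k1
            · rw [hjk, hpk1, zero_div, zero_mul]
            · refine mul_nonpos_of_nonneg_of_nonpos (hβ j hj) (hwm j hj _ hmS ?_).le
              intro hh
              exact hjk (hcinj hj hk1J hh.symm)
          have h4 := Finset.sum_nonpos h3
          have h5 : p κ / z κ * z (c k1) = 0 := by linarith
          have h6 : ∑ j ∈ J, p j / w j j * w j (c k1) = 0 := by linarith
          have h7 := (Finset.sum_eq_zero_iff_of_nonpos h3).1 h6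
          refine hpne (hzero p hpV ?_ ?_)
          · rcases mul_eq_zero.1 h5 with h8 | h8
            · exact hα0 h8
            · exact absurd h8 (hf.zm _ hmS hml).ne
          · intro j hj
            by_cases hjk : j = k1
            · rw [hjk]; exact hpk1
            · rcases mul_eq_zero.1 (h7 j hj) with h8 | h8
              · exact hβ0 j hj h8
              · refine absurd h8 (hwm j hj _ hmS ?_).ne
                intro hh
                exact hjk (hcinj hj hk1J hh.symm)
        · have h1 := hexp p hpV k1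
          have hzk : 0 < z k1 := hf.zT k1 (h.RS k1 hk1R).1 (h.RS k1 hk1R).2
          have h2 : 0 ≤ p κ / z κ * z k1 := mul_nonneg hα hzk.le
          have h3 : ∀ j ∈ J, 0 ≤ p j / w j j * w j k1 := fun j hj =>
            mul_nonneg (hβ j hj) (hwpos j hj k1 hk1R hk1κ).le
          have h4 := Finset.sum_nonneg h3
          rw [hpk1] at h1
          have h5 : p κ / z κ * z k1 = 0 := by linarith
          have h6 : ∑ j ∈ J, p j / w j j * w j k1 = 0 := by linarith
          have h7 := (Finset.sum_eq_zero_iff_of_nonneg h3).1 h6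
          refine hpne (hzero p hpV ?_ ?_)
          · rcases mul_eq_zero.1 h5 with h8 | h8
            · exact hα0 h8
            · exact absurd h8 hzk.ne'
          · intro j hj
            rcases mul_eq_zero.1 (h7 j hj) with h8 | h8
            · exact hβ0 j hj h8
            · exact absurd h8 (hwpos j hj k1 hk1R hk1κ).ne'
    refine ⟨p, hpV, by rw [hpi]; exact one_pos, hpm, by rw [hpl]; linarith, hpκ, ?_, ?_⟩
    · intro k hkS hkJ hkR
      by_cases hkκ : k = κ
      · rw [hkκ, hpκ]
      · have hkR' : k ∉ R := fun hh => hkR (Finset.mem_erase.2 ⟨hkκ, hh⟩)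
        rw [hexp p hpV k, hpκ, zero_div, zero_mul, zero_add]
        exact Finset.sum_nonpos fun j hj =>
          mul_nonpos_of_nonneg_of_nonpos (hβ j hj) (hwK j hj k hkS hkJ hkR').le
    · intro k hk
      refine hpA k ?_
      rcases Finset.mem_union.1 hk with hk | hk
      · exact Finset.mem_union_left _ hk
      · exact Finset.mem_union_right _ (Finset.mem_of_mem_erase hk)

theorem Stage.good (h : Stage V s S u z l J R e0) : Good V s := by
  by_contra hng
  induction hn : R.card generalizing R e0 with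
  | zero =>
    rw [Finset.card_eq_zero] at hn
    subst hn
    exact hng h.final
  | succ n ih =>
    obtain ⟨κ, hκ, h'⟩ := h.step (by rw [← Finset.card_pos]; omega) hng
    exact ih h' (by rw [Finset.card_erase_of_mem hκ]; omega)

end Pool.Agent.MP_e211d6_h89
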